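import Pool.Agent.Work.MP_db9399_sv_helper12.SELC
import Pool.Agent.Work.MP_db9399_sv_helper15.SELQ
import Pool.Agent.Work.MP_db9399_sv_helper15.FLIP
import Pool.Agent.Work.MP_db9399_sv_helper32.SERV

/-!
# MP_db9399, services: SELC and SERV without hypotheses
-/

set_option autoImplicit false

namespace Pool.Agent.Work.MP_db9399_sv.helper12

open Pool.Agent.Work.MP_db9399_sv

universe u

theorem selc : Stmt_SELC.{u} := stmt_SELC helper15.stmt_SELQ

theorem serv : Stmt_SERV.{u} := helper32.stmt_SERV helper15.stmt_FLIP selc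

end Pool.Agent.Work.MP_db9399_sv.helper12
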