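import Pool.Agent.Work.MP_db9399_sv_helper12.Msr

/-!
# MP_db9399, services: the conditions of the local lemma (for the block SELC)
-/

set_option autoImplicit false

namespace Pool.Agent.Work.MP_db9399_sv.helper12

open Finset Classical
open Pool.Agent.Work.MP_db9399_all (nb)
open Pool.Agent.Work.MP_db9399_sl (InS Same Gex)
open Pool.Agent.Work.MP_db9399_sv

universe u

set_option linter.unusedSectionVars false

section bnd
variable {V : Type u} [Fintype V] {k : ℕ}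

variable {z δ1 ρ δ θ η ε1 : ℝ} {G EH : SimpleGraph V} {d : ℕ} {Ys Sh : Finset (Finset V)}
  {UH X0 : Finset V} {c0 tu c : V → Fin k} {t : V → V → Fin k} {E F0 : V → Finset (Fin k)}
  {K0 : Finset (Fin k)} {μ : V → Fin k} {Pm : V → V → Prop} {nL nD : Finset V → ℕ}
  {Ex : Finset V → Finset (Fin k)} {Hb : Finset V → Finset V}
  {Us : Finset V → Finset (V × Fin k)} {C : V × Fin k → Finset (Cn V k)}

/-- all coins which may disturb the coin `q` of `Y` (`x` in the spot `Yx`) -/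
def Dis (q : Cn V k) (Y Yx : Finset V) (q' : Cn V k) : Prop :=
  (qv q' = qv q) ∨ (qv q' = qx q) ∨ (kd q' = 2 ∧ qx q' = qv q) ∨ (kd q' = 2 ∧ qx q' = qx q) ∨
  (kd q' = 3 ∧ qx q' = qv q) ∨ (kd q' = 3 ∧ qx q' = qx q) ∨ (kd q' = 1 ∧ qw q' = qw q) ∨
  (qv q' ∈ Y ∧ al q' = al q) ∨ (kd q' ≠ 1 ∧ qv q' ∈ Y ∧ be q' = al q) ∨
  (kd q' = 1 ∧ qv q' ∈ Y ∧ be q' = al q) ∨ (kd q' = 2 ∧ qx q' ∈ Y ∧ al q' = al q) ∨
  (kd q' = 2 ∧ qx q' ∈ Y ∧ be q' = al q) ∨ (kd q' = 3 ∧ qx q' ∈ Y ∧ al q' = al q) ∨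
  (kd q' = 3 ∧ qx q' ∈ Y ∧ be q' = al q) ∨ (qv q' ∈ Y ∧ al q' = be q) ∨
  (qv q' ∈ Yx ∧ al q' = al q) ∨ (qv q' ∈ Yx ∧ al q' = be q)

/-- the conflict of two choices -/
def Cnf (Y : Finset V) (q : Cn V k) (Y' : Finset V) (q' : Cn V k) : Prop :=
  ¬ Cmp q q' ∨ ((qv q' ∈ Y ∨ qx q' ∈ Y) ∧ (al q = al q' ∨ al q = be q')) ∨
    ((qv q ∈ Y' ∨ qx q ∈ Y') ∧ (al q' = al q ∨ al q' = be q))

theorem Cmp_symm {q q' : Cn V k} (h : Cmp q q') : Cmp q' q :=
  ⟨h.1.symm, h.2.2.1.symm, h.2.1.symm, h.2.2.2.1.symm, fun h1 h2 => (h.2.2.2.2 h2 h1).symm⟩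

theorem Cnf_symm {Y Y' : Finset V} {q q' : Cn V k} (h : Cnf Y q Y' q') : Cnf Y' q' Y q := by
  rcases h with h | h | h
  · exact Or.inl fun h' => h (Cmp_symm h')
  · exact Or.inr (Or.inr h)
  · exact Or.inr (Or.inl h)

variable (S : Sit z δ1 ρ δ θ η G EH d Ys Sh UH X0 c0 tu c t E F0 K0 μ Pm nL nD Ex Hb)
  (H : Chc z ρ ε1 G EH d Ys Sh UH X0 K0 μ t E F0 Pm nL Ex Us C)
  (hz : 0 < z) (hρ : 0 < ρ) (hd : 1 ≤ d)

include S H

theorem nL_le (h0 : (0 : ℝ) ≤ d) (hη : η ≤ θ) {Y : Finset V} (hY : Y ∈ Sh) :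
    (nL Y : ℝ) ≤ θ * d := by
  have h1 := S.ndd Y hY
  have h2 : (0 : ℝ) ≤ nD Y := Nat.cast_nonneg _
  have h3 := mul_le_mul_of_nonneg_right hη h0
  linarith

/-- a conflict is a disturbance -/
theorem dis_of {Y Yx Y' : Finset V} (hY : Y ∈ Ys) (hYx : Yx ∈ Ys) (hY' : Y' ∈ Ys) {q q' : Cn V k}
    (_hq : Nf G Ys UH X0 μ t E q) (hq' : Nf G Ys UH X0 μ t E q') (h1 : qv q ∈ Y) (h2 : qx q ∈ Yx)
    (h3 : qv q' ∈ Y') (h : Cnf Y q Y' q') : Dis q Y Yx q' := by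
  have sp : ∀ {A B : Finset V}, A ∈ Ys → B ∈ Ys → ∀ {v : V}, v ∈ A → v ∈ B → A = B := by
    intro A B hA hB v hvA hvB
    by_contra hne
    exact Finset.disjoint_left.1 (S.dis A hA B hB hne) hvA hvB
  unfold Dis
  by_contra hcon
  simp only [not_or] at hcon
  obtain ⟨n1, n2, n3, n4, n5, n6, n7, n8, n9, n10, n11, n12, n13, n14, n15, n16, n17⟩ := hcon
  rcases h with h | h | h
  · unfold Cmp at h
    refine h ⟨fun h => n1 h.symm, fun h => ?_, fun h => n2 h.symm, fun h => ?_,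
        fun h5 h6 h7 => n7 ⟨h6, h7.symm⟩⟩
    · rcases hq'.x with h4 | h4 | h4
      · exact n1 (h4.symm.trans h.symm)
      · exact n3 ⟨h4, h.symm⟩
      · exact n5 ⟨h4, h.symm⟩
    · rcases hq'.x with h4 | h4 | h4
      · exact n2 (h4.symm.trans h.symm)
      · exact n4 ⟨h4, h.symm⟩
      · exact n6 ⟨h4, h.symm⟩
  · obtain ⟨hv, ha⟩ := h
    by_cases hv' : qv q' ∈ Y
    · rcases ha with ha | ha
      · exact n8 ⟨hv', ha.symm⟩
      · by_cases hk : kd q' = 1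
        · exact n10 ⟨hk, hv', ha.symm⟩
        · exact n9 ⟨hk, hv', ha.symm⟩
    · have hx : qx q' ∈ Y := hv.resolve_left hv'
      rcases hq'.x with h4 | h4 | h4
      · exact hv' (by rw [← h4]; exact hx)
      · rcases ha with ha | ha
        · exact n11 ⟨h4, hx, ha.symm⟩
        · exact n12 ⟨h4, hx, ha.symm⟩
      · rcases ha with ha | ha
        · exact n13 ⟨h4, hx, ha.symm⟩
        · exact n14 ⟨h4, hx, ha.symm⟩
  · obtain ⟨h4, h5⟩ := h
    rcases h4 with h4 | h4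
    · have h6 : qv q' ∈ Y := by rw [sp hY hY' h1 h4]; exact h3
      rcases h5 with h5 | h5
      · exact n8 ⟨h6, h5⟩
      · exact n15 ⟨h6, h5⟩
    · have h6 : qv q' ∈ Yx := by rw [sp hYx hY' h2 h4]; exact h3
      rcases h5 with h5 | h5
      · exact n16 ⟨h6, h5⟩
      · exact n17 ⟨h6, h5⟩

include hz hρ hd

/-- the total weight of the conflicts -/
theorem conf (hθ0 : 0 ≤ θ) (hθ : θ * (8 / z) ≤ 1 / 1000) (hθρ : θ * (8 / z) / ρ ≤ 1 / 1000)
    (hθ' : θ / ρ ≤ 1 / 1000) (hδ1 : δ1 * (8 / z) ≤ 1 / 1000) (hδ : δ * (8 / z) ≤ 1 / 1000)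
    (hδρ : δ * (8 / z) / ρ ≤ 1 / 1000) (hε0 : 0 ≤ ε1) (hε : ε1 * 16 / z ≤ 1 / 1000)
    (hη : η ≤ θ)
    {Y Yx : Finset V} (hY : Y ∈ Sh) (hYx : Yx ∈ Ys) {q : Cn V k} (h1 : sl q ∈ Us Y) :
    M Sh nL Us C (Dis q Y Yx) ≤ 1 / 40 := by
  have hd' : (1 : ℝ) ≤ d := by exact_mod_cast hd
  have hd0 : (d : ℝ) ≠ 0 := by positivity
  have h0 : 0 ≤ θ * (d : ℝ) := by positivity
  have hYs := S.sh hY
  have nfA : ∀ P : Cn V k → Prop, ∀ q ∈ fl Sh Us C P, Nf G Ys UH X0 μ t E q :=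
    fun P q hq => Ac_nf S H (mem_fl.1 hq).1
  have s1 : ∀ x : ℝ, x * d * (8 / (z * d)) = x * (8 / z) := by
    intro x; field_simp
  have s2 : ∀ x : ℝ, x * d * d * (8 / (z * d) / (ρ * d)) = x * (8 / z) / ρ := by
    intro x; field_simp
  have s3 : 2 * (d : ℝ) * (θ * d) * (8 / (z * d) / (ρ * d)) = 2 * (θ * (8 / z) / ρ) := by
    field_simp
  have b1 : ∀ u : V, M Sh nL Us C (fun q' => qv q' = u) ≤ 1 / 1000 := by
    intro u
    refine (M_slot S H hz hd (c1 S (nfA _) (u := u) (fun q hq => (mem_fl.1 hq).2) h0)).trans ?_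
    rw [s1]; exact hθ
  have b2 : ∀ u : V, M Sh nL Us C (fun q' => kd q' = 2 ∧ qx q' = u) ≤ 1 / 1000 := by
    intro u
    refine (M_slot S H hz hd (c2 S (nfA _) (u := u) (fun q hq => (mem_fl.1 hq).2) h0)).trans ?_
    rw [s1]; exact hθ
  have n3 : ∀ {q : Cn V k}, kd q = 3 → kd q ≠ 1 := by
    intro q h; rw [h]; decide
  have n2 : ∀ {q : Cn V k}, kd q = 2 → kd q ≠ 1 := by
    intro q h; rw [h]; decide
  have b3 : ∀ u : V, M Sh nL Us C (fun q' => kd q' = 3 ∧ qx q' = u) ≤ 1 / 1000 := by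
    intro u
    refine (M_coin S H hz hρ hd (fun q _ h => n3 h.1)
      (c3 S (nfA _) (u := u) (fun q hq => (mem_fl.1 hq).2) h0)).trans ?_
    rw [s2]; exact hθρ
  have b4 : M Sh nL Us C (fun q' => kd q' = 1 ∧ qw q' = qw q) ≤ 1 / 1000 := by
    refine (M_slot S H hz hd (c4 S (nfA _) (w := qw q) (fun q hq => (mem_fl.1 hq).2)
      (fun q hq => Ac_pm S H (mem_fl.1 hq).1))).trans ?_
    rw [s1]; exact hδ1
  have b5 : ∀ {Y' : Finset V}, Y' ∈ Ys → ∀ a : Fin k,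
      M Sh nL Us C (fun q' => qv q' ∈ Y' ∧ al q' = a) ≤ 1 / 1000 := by
    intro Y' hY' a
    refine (M_slot S H hz hd (c5 S (nfA _) hY' (fun q hq => (mem_fl.1 hq).2))).trans ?_
    rw [s1]; exact hδ
  have b6 : M Sh nL Us C (fun q' => kd q' ≠ 1 ∧ qv q' ∈ Y ∧ be q' = al q) ≤ 1 / 1000 := by
    refine (M6 S H hz hρ hd hY (al q)).trans ?_
    have : (nL Y : ℝ) / (ρ * d) ≤ θ * d / (ρ * d) :=
      div_le_div_of_nonneg_right (nL_le S H (by positivity) hη hY) (by positivity)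
    refine this.trans ?_
    rw [mul_div_mul_right _ _ hd0]
    exact hθ'
  have b7 : M Sh nL Us C (fun q' => kd q' = 1 ∧ qv q' ∈ Y ∧ be q' = al q) ≤ 1 / 1000 := by
    refine (M7 S H hz hd hY h1).trans ?_
    have h2 : (Y.card : ℝ) ≤ 2 * d := by exact_mod_cast S.upp Y hYs
    calc ε1 * Y.card * (8 / (z * d)) ≤ ε1 * (2 * d) * (8 / (z * d)) :=
          mul_le_mul_of_nonneg_right (mul_le_mul_of_nonneg_left h2 hε0) (by positivity)
      _ = ε1 * 16 / z := by field_simp; ring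
      _ ≤ _ := hε
  have b8 : M Sh nL Us C (fun q' => kd q' = 2 ∧ qx q' ∈ Y ∧ al q' = al q) ≤ 1 / 1000 := by
    refine (M_slot S H hz hd (c8 S (nfA _) hYs (fun q hq => (mem_fl.1 hq).2))).trans ?_
    rw [s1]; exact hδ
  have b9 : M Sh nL Us C (fun q' => kd q' = 2 ∧ qx q' ∈ Y ∧ be q' = al q) ≤ 2 / 1000 := by
    refine (M_coin S H hz hρ hd (fun q _ h => n2 h.1)
      (c9 S (nfA _) hYs (fun q hq => (mem_fl.1 hq).2) h0)).trans ?_
    rw [s3]; linarith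
  have b10 : M Sh nL Us C (fun q' => kd q' = 3 ∧ qx q' ∈ Y ∧ al q' = al q) ≤ 2 / 1000 := by
    refine (M_coin S H hz hρ hd (fun q _ h => n3 h.1)
      (c10 S (nfA _) hYs (fun q hq => (mem_fl.1 hq).2) h0)).trans ?_
    rw [s3]; linarith
  have b11 : M Sh nL Us C (fun q' => kd q' = 3 ∧ qx q' ∈ Y ∧ be q' = al q) ≤ 1 / 1000 := by
    refine (M_coin S H hz hρ hd (fun q _ h => n3 h.1)
      (c11 S (nfA _) hYs (fun q hq => (mem_fl.1 hq).2))).trans ?_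
    rw [s2]; exact hδρ
  unfold Dis
  refine (M_or (b1 _) (M_or (b1 _) (M_or (b2 _) (M_or (b2 _) (M_or (b3 _) (M_or (b3 _) (M_or b4
    (M_or (b5 hYs _) (M_or b6 (M_or b7 (M_or b8 (M_or b9 (M_or b10 (M_or b11
    (M_or (b5 hYs _) (M_or (b5 hYx _) (b5 hYx _))))))))))))))))).trans ?_
  norm_num

/-- the capacity -/
theorem capa (hη0 : 0 ≤ η) {Y : Finset V} (hY : Y ∈ Ys) :
    M Sh nL Us C (fun q => qv q ∈ Y ∨ qx q ∈ Y)
      ≤ (η + η * (8 / z) + η * (8 / z) / ρ) * d := by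
  have hd' : (1 : ℝ) ≤ d := by exact_mod_cast hd
  have hd0 : (d : ℝ) ≠ 0 := by positivity
  have h0 : 0 ≤ η * (d : ℝ) := by positivity
  have nfA : ∀ P : Cn V k → Prop, ∀ q ∈ fl Sh Us C P, Nf G Ys UH X0 μ t E q :=
    fun P q hq => Ac_nf S H (mem_fl.1 hq).1
  have n3 : ∀ {q : Cn V k}, kd q = 3 → kd q ≠ 1 := by
    intro q h; rw [h]; decide
  have a1 : M Sh nL Us C (fun q => qv q ∈ Y) ≤ η * d :=
    M_own S H hz hd hY h0 (fun h => by
      have h1 := S.ndd Y h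
      have h2 : (0 : ℝ) ≤ nD Y := Nat.cast_nonneg _
      linarith)
  have a2 : M Sh nL Us C (fun q => kd q = 2 ∧ qx q ∈ Y) ≤ η * (8 / z) * d := by
    refine (M_slot S H hz hd (c13 S (nfA _) hY (fun q hq => (mem_fl.1 hq).2))).trans ?_
    apply le_of_eq
    field_simp
  have a3 : M Sh nL Us C (fun q => kd q = 3 ∧ qx q ∈ Y) ≤ η * (8 / z) / ρ * d := by
    refine (M_coin S H hz hρ hd (fun q _ h => n3 h.1)
      (c14 S (nfA _) hY (fun q hq => (mem_fl.1 hq).2))).trans ?_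
    apply le_of_eq
    field_simp
  refine (M_mono (Q := fun q => qv q ∈ Y ∨ (kd q = 2 ∧ qx q ∈ Y) ∨ (kd q = 3 ∧ qx q ∈ Y))
    ?_).trans ((M_or a1 (M_or a2 a3)).trans ?_)
  · intro q hq h
    rcases (Ac_nf S H hq).x with h4 | h4 | h4
    · rw [h4] at h; tauto
    · tauto
    · tauto
  · apply le_of_eq
    ring

/-- the number of spots touched by the coins of a demand -/
theorem num {Y : Finset V} (hY : Y ∈ Sh) :
    (univ.filter (fun I : Finset V => ∃ q, pr Us C Y q ≠ 0 ∧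
      (I ∈ Ys ∧ (qv q ∈ I ∨ qx q ∈ I)))).card ≤ 6 * d ^ 3 := by
  have hYs := S.sh hY
  have sp : ∀ {A B : Finset V}, A ∈ Ys → B ∈ Ys → ∀ {v : V}, v ∈ A → v ∈ B → A = B := by
    intro A B hA hB v hvA hvB
    by_contra hne
    exact Finset.disjoint_left.1 (S.dis A hA B hB hne) hvA hvB
  let g : V → Finset V := fun u => if h : ∃ I ∈ Ys, u ∈ I then h.choose else ∅
  have hg : ∀ u I, I ∈ Ys → u ∈ I → g u = I := by
    intro u I hI hu
    have hex : ∃ I ∈ Ys, u ∈ I := ⟨I, hI, hu⟩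
    have : g u = hex.choose := dif_pos hex
    rw [this]
    exact sp hex.choose_spec.1 hI hex.choose_spec.2 hu
  let B : Finset V := Y ∪ (Y.biUnion (fun v => nb G v) ∪
    Y.biUnion (fun v => (nb G v).biUnion (fun w => nb G w)))
  have hB : B.card ≤ 6 * d ^ 3 := by
    have e1 : Y.card ≤ 2 * d := S.upp Y hYs
    have e2 : (Y.biUnion (fun v => nb G v)).card ≤ 2 * d * d :=
      (Finset.card_biUnion_le_card_mul _ _ d (fun v _ => S.deg v)).trans
        (Nat.mul_le_mul_right _ e1)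
    have e3 : (Y.biUnion (fun v => (nb G v).biUnion (fun w => nb G w))).card ≤ 2 * d * (d * d) :=
      (Finset.card_biUnion_le_card_mul _ _ (d * d) (fun v _ =>
        (Finset.card_biUnion_le_card_mul _ _ d (fun w _ => S.deg w)).trans
          (Nat.mul_le_mul_right _ (S.deg v)))).trans (Nat.mul_le_mul_right _ e1)
    have e4 : B.card ≤ 2 * d + (2 * d * d + 2 * d * (d * d)) :=
      (Finset.card_union_le _ _).trans (add_le_add e1 ((Finset.card_union_le _ _).trans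
        (add_le_add e2 e3)))
    refine e4.trans ?_
    have e5 : d ≤ d ^ 3 := Nat.le_self_pow (by norm_num) d
    have e6 : d * d ≤ d ^ 3 := by
      have := Nat.mul_le_mul_left (d * d) hd
      calc d * d = d * d * 1 := by ring
        _ ≤ d * d * d := this
        _ = d ^ 3 := by ring
    have e7 : d * (d * d) = d ^ 3 := by ring
    nlinarith
  refine le_trans (Finset.card_le_card (t := B.image g) ?_) (Finset.card_image_le.trans hB)
  intro I hI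
  rw [mem_filter] at hI
  obtain ⟨q, hq, hIs, hqI⟩ := hI.2
  obtain ⟨h1, h2⟩ := pr_ne hq
  have hN : Nf G Ys UH X0 μ t E q := Ac_nf S H (mem_Ac.2 ⟨Y, hY, h1, h2⟩)
  have hv : qv q ∈ Y := H.uy Y hY _ h1
  rw [mem_image]
  rcases hqI with h | h
  · exact ⟨qv q, mem_union_left _ hv, hg _ _ hIs h⟩
  · refine ⟨qx q, ?_, hg _ _ hIs h⟩
    rcases hN.x with h4 | h4 | h4
    · rw [h4]; exact mem_union_left _ hv
    · refine mem_union_right _ (mem_union_left _ (mem_biUnion.2 ⟨qv q, hv, ?_⟩))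
      simpa [nb] using (hN.k2 h4).2.1.1
    · refine mem_union_right _ (mem_union_right _ (mem_biUnion.2 ⟨qv q, hv,
        mem_biUnion.2 ⟨qw q, ?_, ?_⟩⟩))
      · simpa [nb] using (hN.k3 h4).1.1
      · simpa [nb] using (hN.k3 h4).2.2.1.1.symm

end bnd

end Pool.Agent.Work.MP_db9399_sv.helper12
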