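import Pool.Agent.Work.MP_db9399_sv.Interface

/-!
# MP_db9399, services: counting of coins (for the block SELC)
-/

set_option autoImplicit false

namespace Pool.Agent.Work.MP_db9399_sv.helper12

open Finset Classical
open Pool.Agent.Work.MP_db9399_all (nb)
open Pool.Agent.Work.MP_db9399_sl (InS Same Gex)
open Pool.Agent.Work.MP_db9399_sv

universe u

set_option linter.unusedSectionVars false

section cnt
variable {V : Type u} [Fintype V] {k : ℕ}

/-- neighbours outside the own spot -/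
noncomputable def nx (G : SimpleGraph V) (Ys : Finset (Finset V)) (u : V) : Finset V :=
  univ.filter (fun w => (Gex G Ys).Adj u w)

/-- the neighbour on the edge of colour `a` -/
noncomputable def iv (G : SimpleGraph V) (Ys : Finset (Finset V)) (t : V → V → Fin k) (u : V)
    (a : Fin k) : V :=
  if h : ∃ w, (Gex G Ys).Adj u w ∧ t u w = a then h.choose else u

theorem cn_eta (q : Cn V k) {a : Fin 4} {v w x : V} {b e : Fin k} (h1 : kd q = a) (h2 : qv q = v)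
    (h3 : qw q = w) (h4 : qx q = x) (h5 : al q = b) (h6 : be q = e) :
    ((a, v, w, x, b, e) : Cn V k) = q := by
  subst h1 h2 h3 h4 h5 h6
  rfl

/-- the slot of a coin -/
def sl (q : Cn V k) : V × Fin k := (qv q, al q)

variable {z δ1 ρ δ θ η : ℝ} {G EH : SimpleGraph V} {d : ℕ} {Ys Sh : Finset (Finset V)}
  {UH X0 : Finset V} {c0 tu c : V → Fin k} {t : V → V → Fin k} {E F0 : V → Finset (Fin k)}
  {K0 : Finset (Fin k)} {μ : V → Fin k} {Pm : V → V → Prop} {nL nD : Finset V → ℕ}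
  {Ex : Finset V → Finset (Fin k)} {Hb : Finset V → Finset V}

theorem iv_eq (S : Sit z δ1 ρ δ θ η G EH d Ys Sh UH X0 c0 tu c t E F0 K0 μ Pm nL nD Ex Hb)
    {u w : V} {a : Fin k} (h : (Gex G Ys).Adj u w) (ht : t u w = a) : iv G Ys t u a = w := by
  unfold iv
  have hex : ∃ w, (Gex G Ys).Adj u w ∧ t u w = a := ⟨w, h, ht⟩
  rw [dif_pos hex]
  exact S.cor.ti u (Or.inl hex.choose_spec.1) (Or.inl h) (hex.choose_spec.2.trans ht.symm)

theorem nx_card (S : Sit z δ1 ρ δ θ η G EH d Ys Sh UH X0 c0 tu c t E F0 K0 μ Pm nL nD Ex Hb)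
    {u : V} (hu : InS Ys u) : ((nx G Ys u).card : ℝ) ≤ θ * d := by
  refine le_trans ?_ (S.Ec u hu)
  have h1 : (nx G Ys u).card ≤ (E u).card := by
    refine Finset.card_le_card_of_injOn (t u) ?_ ?_
    · intro w hw
      simp only [nx, coe_filter, mem_univ, true_and, Set.mem_ofPred_eq] at hw
      exact S.cor.Et u w hu (Or.inl hw)
    · intro a ha b hb hab
      simp only [nx, coe_filter, mem_univ, true_and, Set.mem_ofPred_eq] at ha hb
      exact S.cor.ti u (Or.inl ha) (Or.inl hb) hab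
  exact_mod_cast h1

/-- normal form of a valid coin -/
structure Nf (G : SimpleGraph V) (Ys : Finset (Finset V)) (UH X0 : Finset V) (μ : V → Fin k)
    (t : V → V → Fin k) (E : V → Finset (Fin k)) (q : Cn V k) : Prop where
  iv : InS Ys (qv q)
  ix : InS Ys (qx q)
  vX : qv q ∉ X0
  xX : qx q ∉ X0 ∨ qx q ∈ UH
  aE : al q ∈ E (qv q)
  cs : (kd q = 0 ∧ qw q = qv q ∧ qx q = qv q) ∨
    (kd q = 1 ∧ qx q = qv q ∧ (Gex G Ys).Adj (qv q) (qw q) ∧ t (qv q) (qw q) = al q ∧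
      be q = μ (qw q)) ∨
    (kd q = 2 ∧ qw q = qx q ∧ (Gex G Ys).Adj (qv q) (qx q) ∧ t (qv q) (qx q) = al q) ∨
    (kd q = 3 ∧ (Gex G Ys).Adj (qv q) (qw q) ∧ t (qv q) (qw q) = al q ∧
      (Gex G Ys).Adj (qx q) (qw q) ∧ t (qx q) (qw q) = be q ∧ ¬ Same Ys (qv q) (qx q))

theorem gex_of {v w : V} (h : G.Adj v w) (hw : ¬ InS Ys w) : (Gex G Ys).Adj v w :=
  ⟨h, fun ⟨Y, hY, _, h2⟩ => hw ⟨Y, hY, h2⟩⟩

theorem nf_of (S : Sit z δ1 ρ δ θ η G EH d Ys Sh UH X0 c0 tu c t E F0 K0 μ Pm nL nD Ex Hb)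
    {q : Cn V k} (hq : Vld G EH Ys Sh UH X0 K0 μ t E F0 q) : Nf G Ys UH X0 μ t E q := by
  have hSh : ∀ v, InS Sh v → InS Ys v := fun v ⟨Y, hY, hv⟩ => ⟨Y, S.sh hY, hv⟩
  obtain ⟨h1, h2, h30, h4, h5, h6, h7⟩ := hq
  have h3 : qx q ∉ X0 ∨ qx q ∈ UH := h30.imp_right fun h => h.2.1
  have hv := hSh _ h1
  rcases h7 with h | h | h | h
  · obtain ⟨a1, a2, a3, a4⟩ := h
    exact ⟨hv, by rw [a3]; exact hv, h2, h3, h4, Or.inl ⟨a1, a2, a3⟩⟩
  · obtain ⟨a1, a2, a3, a4, a5, a6, a7⟩ := h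
    exact ⟨hv, by rw [a2]; exact hv, h2, h3, h4, Or.inr (Or.inl ⟨a1, a2, gex_of a4 a3, a6, a7⟩)⟩
  · obtain ⟨a1, a2, a3, a4, a5, a6, a7⟩ := h
    exact ⟨hv, a3, h2, h3, h4, Or.inr (Or.inr (Or.inl ⟨a1, a2, a4, a6⟩))⟩
  · obtain ⟨a1, a2, a3, a4, a5, a6, a7, a8, a9, a10, a11⟩ := h
    exact ⟨hv, hSh _ a6, h2, h3, h4,
      Or.inr (Or.inr (Or.inr ⟨a1, gex_of a3 a2, a5, gex_of a7 a2, a9, a11⟩))⟩

/-- coins of kind 2 -/
theorem Nf.k2 {q : Cn V k} (h : Nf G Ys UH X0 μ t E q) (hk : kd q = 2) :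
    qw q = qx q ∧ (Gex G Ys).Adj (qv q) (qx q) ∧ t (qv q) (qx q) = al q := by
  rcases h.cs with h | h | h | h
  · rw [hk] at h; exact absurd h.1 (by decide)
  · rw [hk] at h; exact absurd h.1 (by decide)
  · exact ⟨h.2.1, h.2.2.1, h.2.2.2⟩
  · rw [hk] at h; exact absurd h.1 (by decide)

/-- coins of kind 3 -/
theorem Nf.k3 {q : Cn V k} (h : Nf G Ys UH X0 μ t E q) (hk : kd q = 3) :
    (Gex G Ys).Adj (qv q) (qw q) ∧ t (qv q) (qw q) = al q ∧
      (Gex G Ys).Adj (qx q) (qw q) ∧ t (qx q) (qw q) = be q ∧ ¬ Same Ys (qv q) (qx q) := by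
  rcases h.cs with h | h | h | h
  · rw [hk] at h; exact absurd h.1 (by decide)
  · rw [hk] at h; exact absurd h.1 (by decide)
  · rw [hk] at h; exact absurd h.1 (by decide)
  · exact h.2

/-- coins of kind 1 -/
theorem Nf.k1 {q : Cn V k} (h : Nf G Ys UH X0 μ t E q) (hk : kd q = 1) :
    qx q = qv q ∧ (Gex G Ys).Adj (qv q) (qw q) ∧ t (qv q) (qw q) = al q ∧ be q = μ (qw q) := by
  rcases h.cs with h | h | h | h
  · rw [hk] at h; exact absurd h.1 (by decide)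
  · exact h.2
  · rw [hk] at h; exact absurd h.1 (by decide)
  · rw [hk] at h; exact absurd h.1 (by decide)

/-- the vertex `x` of a coin: `v`, or kind 2, or kind 3 -/
theorem Nf.x {q : Cn V k} (h : Nf G Ys UH X0 μ t E q) : qx q = qv q ∨ kd q = 2 ∨ kd q = 3 := by
  rcases h.cs with h | h | h | h
  · exact Or.inl h.2.2
  · exact Or.inl h.2.1
  · exact Or.inr (Or.inl h.1)
  · exact Or.inr (Or.inr h.1)

theorem Nf.same {q : Cn V k} (h : Nf G Ys UH X0 μ t E q) {Y : Finset V} (hY : Y ∈ Ys)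
    (h1 : qv q ∈ Y) (h2 : qx q ∈ Y) : qx q = qv q := by
  rcases h.x with h3 | h3 | h3
  · exact h3
  · exact absurd ⟨Y, hY, h1, h2⟩ (h.k2 h3).2.1.2
  · exact absurd ⟨Y, hY, h1, h2⟩ (h.k3 h3).2.2.2.2

theorem cbr {ι β : Type*} [DecidableEq β] (s : Finset ι) (f : ι → Finset β) (a b : ℝ) (hs : (s.card : ℝ) ≤ a)
    (hb : 0 ≤ b) (hf : ∀ i ∈ s, ((f i).card : ℝ) ≤ b) : ((s.biUnion f).card : ℝ) ≤ a * b := by
  have h1 : ((s.biUnion f).card : ℝ) ≤ ∑ i ∈ s, ((f i).card : ℝ) := by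
    exact_mod_cast Finset.card_biUnion_le
  refine h1.trans ?_
  refine (Finset.sum_le_card_nsmul s _ b hf).trans ?_
  rw [nsmul_eq_mul]
  exact mul_le_mul_of_nonneg_right hs hb

theorem cis {ι β : Type*} [DecidableEq β] {A : Finset β} {s : Finset ι} (f : ι → β) (h : A ⊆ s.image f)
    {a : ℝ} (hs : (s.card : ℝ) ≤ a) : (A.card : ℝ) ≤ a := by
  refine le_trans ?_ hs
  exact_mod_cast (Finset.card_le_card h).trans Finset.card_image_le

theorem csub {β : Type*} {A B : Finset β} (h : A ⊆ B) {a : ℝ} (hs : (B.card : ℝ) ≤ a) :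
    (A.card : ℝ) ≤ a :=
  le_trans (by exact_mod_cast Finset.card_le_card h) hs

variable (S : Sit z δ1 ρ δ θ η G EH d Ys Sh UH X0 c0 tu c t E F0 K0 μ Pm nL nD Ex Hb)
  {A : Finset (Cn V k)} (hA : ∀ q ∈ A, Nf G Ys UH X0 μ t E q)

include S hA

/-- slots at `u` -/
theorem c1 {u : V} (h : ∀ q ∈ A, qv q = u) (h0 : 0 ≤ θ * d) :
    ((A.image sl).card : ℝ) ≤ θ * d := by
  by_cases hu : InS Ys u
  · refine cis (s := E u) (fun a => (u, a)) ?_ (S.Ec u hu)
    intro s hs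
    obtain ⟨q, hq, rfl⟩ := mem_image.1 hs
    refine mem_image.2 ⟨al q, ?_, ?_⟩
    · have := (hA q hq).aE
      rwa [h q hq] at this
    · simp [sl, h q hq]
  · have : A = ∅ := by
      rw [Finset.eq_empty_iff_forall_notMem]
      intro q hq
      have := (hA q hq).iv
      rw [h q hq] at this
      exact hu this
    simpa [this] using h0

/-- kind 2, `x = u` -/
theorem c2 {u : V} (h : ∀ q ∈ A, kd q = 2 ∧ qx q = u) (h0 : 0 ≤ θ * d) :
    ((A.image sl).card : ℝ) ≤ θ * d := by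
  by_cases hu : InS Ys u
  · refine cis (s := nx G Ys u) (fun v => (v, t v u)) ?_ (nx_card S hu)
    intro s hs
    obtain ⟨q, hq, rfl⟩ := mem_image.1 hs
    obtain ⟨h1, h2⟩ := h q hq
    obtain ⟨b1, b2, b3⟩ := (hA q hq).k2 h1
    refine mem_image.2 ⟨qv q, ?_, ?_⟩
    · rw [h2] at b2
      simpa [nx] using b2.symm
    · rw [h2] at b3
      simp [sl, b3]
  · have : A = ∅ := by
      rw [Finset.eq_empty_iff_forall_notMem]
      intro q hq
      have := (hA q hq).ix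
      rw [(h q hq).2] at this
      exact hu this
    simpa [this] using h0

/-- kind 3, `x = u` -/
theorem c3 {u : V} (h : ∀ q ∈ A, kd q = 3 ∧ qx q = u) (h0 : 0 ≤ θ * d) :
    (A.card : ℝ) ≤ θ * d * d := by
  by_cases hu : InS Ys u
  · refine csub (B := (nx G Ys u).biUnion (fun w => (nb G w).image
      (fun v => ((3, v, w, u, t v w, t u w) : Cn V k)))) ?_ (cbr _ _ _ _ (nx_card S hu) (by positivity) ?_)
    · intro q hq
      obtain ⟨h1, h2⟩ := h q hq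
      obtain ⟨b1, b2, b3, b4, b5⟩ := (hA q hq).k3 h1
      refine mem_biUnion.2 ⟨qw q, ?_, mem_image.2 ⟨qv q, ?_, ?_⟩⟩
      · rw [h2] at b3
        simpa [nx] using b3
      · simpa [nb] using b1.1.symm
      · rw [h2] at b4
        exact cn_eta q h1 rfl rfl h2 b2.symm b4.symm
    · intro w _
      refine le_trans ?_ (show ((nb G w).card : ℝ) ≤ d by exact_mod_cast S.deg w)
      exact_mod_cast Finset.card_image_le
  · have : A = ∅ := by
      rw [Finset.eq_empty_iff_forall_notMem]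
      intro q hq
      have := (hA q hq).ix
      rw [(h q hq).2] at this
      exact hu this
    rw [this]
    simp only [card_empty, Nat.cast_zero]
    positivity

/-- kind 1, common hub -/
theorem c4 {w : V} (h : ∀ q ∈ A, kd q = 1 ∧ qw q = w) (hP : ∀ q ∈ A, kd q = 1 → Pm (qw q) (qv q)) :
    ((A.image sl).card : ℝ) ≤ δ1 * d := by
  refine cis (s := univ.filter (fun v => Pm w v)) (fun v => (v, t v w)) ?_ (S.pm w)
  intro s hs
  obtain ⟨q, hq, rfl⟩ := mem_image.1 hs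
  obtain ⟨h1, h2⟩ := h q hq
  obtain ⟨b1, b2, b3, b4⟩ := (hA q hq).k1 h1
  refine mem_image.2 ⟨qv q, ?_, ?_⟩
  · have := hP q hq h1
    rw [h2] at this
    simpa using this
  · rw [h2] at b3
    simp [sl, b3]

/-- own colour `a` at the spot `Y` -/
theorem c5 {Y : Finset V} {a : Fin k} (hY : Y ∈ Ys) (h : ∀ q ∈ A, qv q ∈ Y ∧ al q = a) :
    ((A.image sl).card : ℝ) ≤ δ * d := by
  refine cis (s := Y.filter (fun v => a ∈ E v)) (fun v => (v, a)) ?_ (S.ld Y hY a)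
  intro s hs
  obtain ⟨q, hq, rfl⟩ := mem_image.1 hs
  obtain ⟨h1, h2⟩ := h q hq
  refine mem_image.2 ⟨qv q, ?_, ?_⟩
  · have := (hA q hq).aE
    rw [h2] at this
    simp [h1, this]
  · simp [sl, h2]

/-- kind 2, `x` in `Y`, own colour `a` -/
theorem c8 {Y : Finset V} {a : Fin k} (hY : Y ∈ Ys) (h : ∀ q ∈ A, kd q = 2 ∧ qx q ∈ Y ∧ al q = a) :
    ((A.image sl).card : ℝ) ≤ δ * d := by
  refine cis (s := Y.filter (fun v => a ∈ E v)) (fun x => (iv G Ys t x a, a)) ?_ (S.ld Y hY a)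
  intro s hs
  obtain ⟨q, hq, rfl⟩ := mem_image.1 hs
  obtain ⟨h1, h2, h3⟩ := h q hq
  obtain ⟨b1, b2, b3⟩ := (hA q hq).k2 h1
  have b4 : t (qx q) (qv q) = a := by rw [S.cor.ts, b3, h3]
  refine mem_image.2 ⟨qx q, ?_, ?_⟩
  · have := S.cor.Et (qx q) (qv q) (hA q hq).ix (Or.inl b2.symm)
    rw [b4] at this
    simp [h2, this]
  · simp only [iv_eq S b2.symm b4, sl, h3]

/-- kind 2, `x` in `Y`, second colour `a` -/
theorem c9 {Y : Finset V} {a : Fin k} (hY : Y ∈ Ys) (h : ∀ q ∈ A, kd q = 2 ∧ qx q ∈ Y ∧ be q = a)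
    (h0 : 0 ≤ θ * d) : (A.card : ℝ) ≤ 2 * d * (θ * d) := by
  refine csub (B := Y.biUnion (fun x => (nx G Ys x).image
    (fun v => ((2, v, x, x, t v x, a) : Cn V k)))) ?_
    (cbr _ _ _ _ (by exact_mod_cast S.upp Y hY) h0 ?_)
  · intro q hq
    obtain ⟨h1, h2, h3⟩ := h q hq
    obtain ⟨b1, b2, b3⟩ := (hA q hq).k2 h1
    refine mem_biUnion.2 ⟨qx q, h2, mem_image.2 ⟨qv q, ?_, ?_⟩⟩
    · simpa [nx] using b2.symm
    · exact cn_eta q h1 rfl b1 rfl b3.symm h3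
  · intro x hx
    refine le_trans ?_ (nx_card S ⟨Y, hY, hx⟩)
    exact_mod_cast Finset.card_image_le

/-- kind 3, `x` in `Y`, own colour `a` -/
theorem c10 {Y : Finset V} {a : Fin k} (hY : Y ∈ Ys) (h : ∀ q ∈ A, kd q = 3 ∧ qx q ∈ Y ∧ al q = a)
    (h0 : 0 ≤ θ * d) : (A.card : ℝ) ≤ 2 * d * (θ * d) := by
  refine csub (B := Y.biUnion (fun x => (nx G Ys x).image
    (fun w => ((3, iv G Ys t w a, w, x, a, t x w) : Cn V k)))) ?_
    (cbr _ _ _ _ (by exact_mod_cast S.upp Y hY) h0 ?_)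
  · intro q hq
    obtain ⟨h1, h2, h3⟩ := h q hq
    obtain ⟨b1, b2, b3, b4, b5⟩ := (hA q hq).k3 h1
    refine mem_biUnion.2 ⟨qx q, h2, mem_image.2 ⟨qw q, ?_, ?_⟩⟩
    · simpa [nx] using b3
    · have b6 : iv G Ys t (qw q) a = qv q := iv_eq S b1.symm (by rw [S.cor.ts, b2, h3])
      exact cn_eta q h1 b6.symm rfl rfl h3 b4.symm
  · intro x hx
    refine le_trans ?_ (nx_card S ⟨Y, hY, hx⟩)
    exact_mod_cast Finset.card_image_le

/-- kind 3, `x` in `Y`, second colour `a` -/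
theorem c11 {Y : Finset V} {a : Fin k} (hY : Y ∈ Ys) (h : ∀ q ∈ A, kd q = 3 ∧ qx q ∈ Y ∧ be q = a) :
    (A.card : ℝ) ≤ δ * d * d := by
  refine csub (B := (Y.filter (fun x => a ∈ E x)).biUnion (fun x => (nb G (iv G Ys t x a)).image
    (fun v => ((3, v, iv G Ys t x a, x, t v (iv G Ys t x a), a) : Cn V k)))) ?_
    (cbr _ _ _ _ (S.ld Y hY a) (by positivity) ?_)
  · intro q hq
    obtain ⟨h1, h2, h3⟩ := h q hq
    obtain ⟨b1, b2, b3, b4, b5⟩ := (hA q hq).k3 h1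
    have b6 : iv G Ys t (qx q) a = qw q := iv_eq S b3 (by rw [b4, h3])
    refine mem_biUnion.2 ⟨qx q, ?_, mem_image.2 ⟨qv q, ?_, ?_⟩⟩
    · have := S.cor.Et (qx q) (qw q) (hA q hq).ix (Or.inl b3)
      rw [b4, h3] at this
      simp [h2, this]
    · rw [b6]
      simpa [nb] using b1.1.symm
    · exact cn_eta q h1 rfl b6.symm rfl (by rw [b6]; exact b2.symm) h3
  · intro x _
    refine le_trans ?_ (show ((nb G (iv G Ys t x a)).card : ℝ) ≤ d by exact_mod_cast S.deg _)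
    exact_mod_cast Finset.card_image_le

/-- kind 2, `x` in `Y` -/
theorem c13 {Y : Finset V} (hY : Y ∈ Ys) (h : ∀ q ∈ A, kd q = 2 ∧ qx q ∈ Y) :
    ((A.image sl).card : ℝ) ≤ η * d * d := by
  refine cis (s := slo Y E) (fun p => (iv G Ys t p.1 p.2, p.2)) ?_ (S.Es Y hY)
  intro s hs
  obtain ⟨q, hq, rfl⟩ := mem_image.1 hs
  obtain ⟨h1, h2⟩ := h q hq
  obtain ⟨b1, b2, b3⟩ := (hA q hq).k2 h1
  have b4 : t (qx q) (qv q) = al q := by rw [S.cor.ts, b3]
  refine mem_image.2 ⟨(qx q, al q), ?_, ?_⟩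
  · have := S.cor.Et (qx q) (qv q) (hA q hq).ix (Or.inl b2.symm)
    rw [b4] at this
    simp only [slo, mem_filter, mem_product, mem_univ, and_true]
    exact ⟨h2, this⟩
  · simp only [iv_eq S b2.symm b4, sl]

/-- kind 3, `x` in `Y` -/
theorem c14 {Y : Finset V} (hY : Y ∈ Ys) (h : ∀ q ∈ A, kd q = 3 ∧ qx q ∈ Y) :
    (A.card : ℝ) ≤ η * d * d * d := by
  refine csub (B := (slo Y E).biUnion (fun p => (nb G (iv G Ys t p.1 p.2)).image
    (fun v => ((3, v, iv G Ys t p.1 p.2, p.1, t v (iv G Ys t p.1 p.2), p.2) : Cn V k)))) ?_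
    (cbr _ _ _ _ (S.Es Y hY) (by positivity) ?_)
  · intro q hq
    obtain ⟨h1, h2⟩ := h q hq
    obtain ⟨b1, b2, b3, b4, b5⟩ := (hA q hq).k3 h1
    have b6 : iv G Ys t (qx q) (be q) = qw q := iv_eq S b3 b4
    refine mem_biUnion.2 ⟨(qx q, be q), ?_, mem_image.2 ⟨qv q, ?_, ?_⟩⟩
    · have := S.cor.Et (qx q) (qw q) (hA q hq).ix (Or.inl b3)
      rw [b4] at this
      simp only [slo, mem_filter, mem_product, mem_univ, and_true]
      exact ⟨h2, this⟩
    · simp only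
      rw [b6]
      simpa [nb] using b1.1.symm
    · simp only
      exact cn_eta q h1 rfl b6.symm rfl (by rw [b6]; exact b2.symm) rfl
  · intro p _
    refine le_trans ?_ (show ((nb G (iv G Ys t p.1 p.2)).card : ℝ) ≤ d by exact_mod_cast S.deg _)
    exact_mod_cast Finset.card_image_le

end cnt

end Pool.Agent.Work.MP_db9399_sv.helper12
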