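import Pool.Agent.Work.MP_db9399_sv_helper12.Wts

/-!
# MP_db9399, services: the measure of a set of coins (for the block SELC)
-/

set_option autoImplicit false

namespace Pool.Agent.Work.MP_db9399_sv.helper12

open Finset Classical
open Pool.Agent.Work.MP_db9399_all (nb)
open Pool.Agent.Work.MP_db9399_sl (InS Same Gex)
open Pool.Agent.Work.MP_db9399_sv

universe u

set_option linter.unusedSectionVars false

section msr
variable {V : Type u} [Fintype V] {k : ℕ}

variable {z δ1 ρ δ θ η ε1 : ℝ} {G EH : SimpleGraph V} {d : ℕ} {Ys Sh : Finset (Finset V)}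
  {UH X0 : Finset V} {c0 tu c : V → Fin k} {t : V → V → Fin k} {E F0 : V → Finset (Fin k)}
  {K0 : Finset (Fin k)} {μ : V → Fin k} {Pm : V → V → Prop} {nL nD : Finset V → ℕ}
  {Ex : Finset V → Finset (Fin k)} {Hb : Finset V → Finset V}
  {Us : Finset V → Finset (V × Fin k)} {C : V × Fin k → Finset (Cn V k)}

/-- the probability of the coin `q` for a demand of `Y` -/
noncomputable def pr (Us : Finset V → Finset (V × Fin k)) (C : V × Fin k → Finset (Cn V k))
    (Y : Finset V) (q : Cn V k) : ℚ :=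
  if sl q ∈ Us Y ∧ q ∈ C (sl q) then 1 / ((Us Y).card * (C (sl q)).card) else 0

/-- the total weight of the coin `q` -/
noncomputable def W (Sh : Finset (Finset V)) (nL : Finset V → ℕ)
    (Us : Finset V → Finset (V × Fin k)) (C : V × Fin k → Finset (Cn V k)) (q : Cn V k) : ℝ :=
  ∑ Y ∈ Sh, (nL Y : ℝ) * (pr Us C Y q : ℝ)

/-- the active coins -/
noncomputable def Ac (Sh : Finset (Finset V)) (Us : Finset V → Finset (V × Fin k))
    (C : V × Fin k → Finset (Cn V k)) : Finset (Cn V k) :=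
  univ.filter (fun q => ∃ Y ∈ Sh, sl q ∈ Us Y ∧ q ∈ C (sl q))

/-- the active coins with the property `P` -/
noncomputable def fl (Sh : Finset (Finset V)) (Us : Finset V → Finset (V × Fin k))
    (C : V × Fin k → Finset (Cn V k)) (P : Cn V k → Prop) : Finset (Cn V k) :=
  (Ac Sh Us C).filter P

theorem mem_fl {Sh : Finset (Finset V)} {Us : Finset V → Finset (V × Fin k)}
    {C : V × Fin k → Finset (Cn V k)} {P : Cn V k → Prop} {q : Cn V k} :
    q ∈ fl Sh Us C P ↔ q ∈ Ac Sh Us C ∧ P q := by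
  unfold fl
  exact mem_filter

/-- the total weight of the active coins with the property `P` -/
noncomputable def M (Sh : Finset (Finset V)) (nL : Finset V → ℕ)
    (Us : Finset V → Finset (V × Fin k)) (C : V × Fin k → Finset (Cn V k))
    (P : Cn V k → Prop) : ℝ := ∑ q ∈ fl Sh Us C P, W Sh nL Us C q

theorem pr_nonneg (Y : Finset V) (q : Cn V k) : 0 ≤ pr Us C Y q := by
  unfold pr
  split_ifs
  · positivity
  · exact le_rfl

theorem pr_ne {Y : Finset V} {q : Cn V k} (h : pr Us C Y q ≠ 0) :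
    sl q ∈ Us Y ∧ q ∈ C (sl q) := by
  by_contra hcon
  exact h (by unfold pr; rw [if_neg hcon])

theorem W_nonneg (q : Cn V k) : 0 ≤ W Sh nL Us C q :=
  Finset.sum_nonneg fun Y _ => mul_nonneg (Nat.cast_nonneg _) (by exact_mod_cast pr_nonneg Y q)

theorem mem_Ac {q : Cn V k} :
    q ∈ Ac Sh Us C ↔ ∃ Y ∈ Sh, sl q ∈ Us Y ∧ q ∈ C (sl q) := by
  unfold Ac
  rw [mem_filter]
  simp

theorem W_zero {q : Cn V k} (h : q ∉ Ac Sh Us C) : W Sh nL Us C q = 0 := by
  unfold W
  refine Finset.sum_eq_zero fun Y hY => ?_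
  have : pr Us C Y q = 0 := by
    by_contra hcon
    exact h (mem_Ac.2 ⟨Y, hY, pr_ne hcon⟩)
  rw [this]
  simp

/-- the measure as a sum over all coins -/
theorem M_eq (P : Cn V k → Prop) [DecidablePred P] :
    M Sh nL Us C P = ∑ q ∈ univ.filter P, W Sh nL Us C q := by
  unfold M
  refine Finset.sum_subset ?_ ?_
  · intro q hq
    rw [mem_fl] at hq
    rw [mem_filter]
    exact ⟨mem_univ _, hq.2⟩
  · intro q hq hq'
    refine W_zero fun h => hq' ?_
    rw [mem_filter] at hq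
    rw [mem_fl]
    exact ⟨h, hq.2⟩

theorem M_mono {P Q : Cn V k → Prop} (h : ∀ q ∈ Ac Sh Us C, P q → Q q) :
    M Sh nL Us C P ≤ M Sh nL Us C Q := by
  unfold M
  refine Finset.sum_le_sum_of_subset_of_nonneg ?_ (fun q _ _ => W_nonneg q)
  intro q hq
  rw [mem_fl] at hq ⊢
  exact ⟨hq.1, h q hq.1 hq.2⟩

theorem M_or {P Q : Cn V k → Prop} {a b : ℝ} (h1 : M Sh nL Us C P ≤ a)
    (h2 : M Sh nL Us C Q ≤ b) : M Sh nL Us C (fun q => P q ∨ Q q) ≤ a + b := by
  refine le_trans ?_ (add_le_add h1 h2)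
  unfold M
  have h4 : fl Sh Us C (fun q => P q ∨ Q q) = fl Sh Us C P ∪ fl Sh Us C Q := by
    ext q
    rw [mem_union, mem_fl, mem_fl, mem_fl]
    tauto
  rw [h4]
  have := Finset.sum_union_inter (s₁ := fl Sh Us C P) (s₂ := fl Sh Us C Q)
    (f := W Sh nL Us C)
  rw [← this]
  have h3 : 0 ≤ ∑ q ∈ fl Sh Us C P ∩ fl Sh Us C Q, W Sh nL Us C q :=
    Finset.sum_nonneg fun q _ => W_nonneg q
  linarith

variable (S : Sit z δ1 ρ δ θ η G EH d Ys Sh UH X0 c0 tu c t E F0 K0 μ Pm nL nD Ex Hb)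
  (H : Chc z ρ ε1 G EH d Ys Sh UH X0 K0 μ t E F0 Pm nL Ex Us C)
  (hz : 0 < z) (hρ : 0 < ρ) (hd : 1 ≤ d)

include S H

theorem Ac_nf {q : Cn V k} (hq : q ∈ Ac Sh Us C) : Nf G Ys UH X0 μ t E q := by
  obtain ⟨Y, hY, h1, h2⟩ := mem_Ac.1 hq
  exact nf_of S (H.cv _ q h2).2.1

theorem Ac_pm {q : Cn V k} (hq : q ∈ Ac Sh Us C) : kd q = 1 → Pm (qw q) (qv q) := by
  obtain ⟨Y, hY, h1, h2⟩ := mem_Ac.1 hq
  exact (H.cv _ q h2).2.2

theorem Ac_Y {q : Cn V k} (hq : q ∈ Ac Sh Us C) {Y : Finset V} (hY : Y ∈ Ys) (h : qv q ∈ Y) :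
    Y ∈ Sh ∧ sl q ∈ Us Y ∧ q ∈ C (sl q) := by
  obtain ⟨Y', hY', h1, h2⟩ := mem_Ac.1 hq
  have h3 : qv q ∈ Y' := H.uy Y' hY' _ h1
  have h4 : Y = Y' := by
    by_contra hne
    exact Finset.disjoint_left.1 (S.dis Y hY Y' (S.sh hY') hne) h h3
  rw [h4]
  exact ⟨hY', h1, h2⟩

theorem W_val {q : Cn V k} {Y : Finset V} (hY : Y ∈ Sh) (h1 : sl q ∈ Us Y) (h2 : q ∈ C (sl q)) :
    W Sh nL Us C q = nL Y / ((Us Y).card * (C (sl q)).card) := by
  unfold W
  rw [Finset.sum_eq_single Y]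
  · unfold pr
    rw [if_pos ⟨h1, h2⟩]
    push_cast
    ring
  · intro Y' hY' hne
    have : pr Us C Y' q = 0 := by
      by_contra hcon
      have h3 := pr_ne hcon
      have h4 := H.uy Y' hY' _ h3.1
      have h5 := H.uy Y hY _ h1
      exact Finset.disjoint_left.1 (S.dis Y' (S.sh hY') Y (S.sh hY) hne) h4 h5
    rw [this]
    simp
  · intro h; exact absurd hY h

include hz hd

theorem nd_le {Y : Finset V} (hY : Y ∈ Sh) : (nL Y : ℝ) ≤ 8 / (z * d) * (Us Y).card := by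
  have h1 := H.uc Y hY
  have h2 : (d : ℝ) ≤ 2 * Y.card := by exact_mod_cast S.low Y hY
  have hd' : (1 : ℝ) ≤ d := by exact_mod_cast hd
  have h3 : z / 4 * nL Y * (d / 2) ≤ ((Us Y).card : ℝ) := by
    refine le_trans ?_ h1
    refine mul_le_mul_of_nonneg_left (by linarith) (by positivity)
  rw [div_mul_eq_mul_div, le_div_iff₀ (by positivity)]
  linarith

theorem W_le {q : Cn V k} (hq : q ∈ Ac Sh Us C) :
    W Sh nL Us C q ≤ 8 / (z * d) / (C (sl q)).card := by
  obtain ⟨Y, hY, h1, h2⟩ := mem_Ac.1 hq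
  rw [W_val S H hY h1 h2]
  have h3 : (0 : ℝ) < (Us Y).card := by
    have : 0 < (Us Y).card := Finset.card_pos.2 ⟨_, h1⟩
    exact_mod_cast this
  have h4 : (0 : ℝ) < (C (sl q)).card := by
    have : 0 < (C (sl q)).card := Finset.card_pos.2 ⟨_, h2⟩
    exact_mod_cast this
  rw [← div_div]
  refine div_le_div_of_nonneg_right ?_ h4.le
  rw [div_le_iff₀ h3]
  exact nd_le S H hz hd hY

/-- measure by slots -/
theorem M_slot {P : Cn V k → Prop} {n : ℝ}
    (h : (((fl Sh Us C P).image sl).card : ℝ) ≤ n) :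
    M Sh nL Us C P ≤ n * (8 / (z * d)) := by
  have hd' : (1 : ℝ) ≤ d := by exact_mod_cast hd
  unfold M
  rw [← Finset.sum_fiberwise_of_maps_to (s := fl Sh Us C P)
    (t := (fl Sh Us C P).image sl) (g := sl) (fun q hq => mem_image_of_mem _ hq)]
  refine (Finset.sum_le_card_nsmul _ _ (8 / (z * d)) ?_).trans ?_
  · intro s hs
    obtain ⟨q0, hq0, hs0⟩ := mem_image.1 hs
    rw [mem_fl] at hq0
    have hc0 : q0 ∈ C s := by
      obtain ⟨Y, hY, h1, h2⟩ := mem_Ac.1 hq0.1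
      rw [← hs0]; exact h2
    have h4 : (0 : ℝ) < (C s).card := by
      have : 0 < (C s).card := Finset.card_pos.2 ⟨_, hc0⟩
      exact_mod_cast this
    have h5 : (((fl Sh Us C P).filter (fun q => sl q = s)).card : ℝ) ≤ (C s).card := by
      have : (fl Sh Us C P).filter (fun q => sl q = s) ⊆ C s := by
        intro q hq
        rw [mem_filter, mem_fl] at hq
        obtain ⟨Y, hY, h1, h2⟩ := mem_Ac.1 hq.1.1
        rw [← hq.2]; exact h2
      exact_mod_cast Finset.card_le_card this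
    refine (Finset.sum_le_card_nsmul _ _ (8 / (z * d) / (C s).card) ?_).trans ?_
    · intro q hq
      rw [mem_filter, mem_fl] at hq
      have := W_le S H hz hd hq.1.1
      rwa [hq.2] at this
    · rw [nsmul_eq_mul]
      calc _ ≤ ((C s).card : ℝ) * (8 / (z * d) / (C s).card) :=
            mul_le_mul_of_nonneg_right h5 (by positivity)
        _ = _ := by field_simp
  · rw [nsmul_eq_mul]
    exact mul_le_mul_of_nonneg_right h (by positivity)

include hρ

theorem card_C {q : Cn V k} (hq : q ∈ Ac Sh Us C) (h1 : kd q ≠ 1) :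
    ρ * d ≤ ((C (sl q)).card : ℝ) := by
  obtain ⟨Y, hY, h2, h3⟩ := mem_Ac.1 hq
  obtain ⟨_, i, h4, h5⟩ := H.cc Y hY _ h2
  exact h5 (by rw [← h4 q h3]; exact h1)

/-- measure by coins -/
theorem M_coin {P : Cn V k → Prop} {n : ℝ} (hP : ∀ q ∈ Ac Sh Us C, P q → kd q ≠ 1)
    (h : (((fl Sh Us C P)).card : ℝ) ≤ n) :
    M Sh nL Us C P ≤ n * (8 / (z * d) / (ρ * d)) := by
  have hd' : (1 : ℝ) ≤ d := by exact_mod_cast hd
  unfold M
  refine (Finset.sum_le_card_nsmul _ _ (8 / (z * d) / (ρ * d)) ?_).trans ?_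
  · intro q hq
    rw [mem_fl] at hq
    refine (W_le S H hz hd hq.1).trans ?_
    exact div_le_div_of_nonneg_left (by positivity) (by positivity)
      (card_C S H hz hρ hd hq.1 (hP q hq.1 hq.2))
  · rw [nsmul_eq_mul]
    exact mul_le_mul_of_nonneg_right h (by positivity)

/-- second colour `a` at `Y`, not kind 1 -/
theorem M6 {Y : Finset V} (hY : Y ∈ Sh) (a : Fin k) :
    M Sh nL Us C (fun q => kd q ≠ 1 ∧ qv q ∈ Y ∧ be q = a) ≤ nL Y / (ρ * d) := by
  have hd' : (1 : ℝ) ≤ d := by exact_mod_cast hd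
  have hYs := S.sh hY
  have h1 : (fl Sh Us C (fun q => kd q ≠ 1 ∧ qv q ∈ Y ∧ be q = a)).card
      ≤ (Us Y).card := by
    refine Finset.card_le_card_of_injOn sl ?_ ?_
    · intro q hq
      rw [mem_coe, mem_fl] at hq
      exact (Ac_Y S H hq.1 hYs hq.2.2.1).2.1
    · intro q hq q' hq' hs
      rw [mem_coe, mem_fl] at hq hq'
      obtain ⟨b1, b2, b3⟩ := Ac_Y S H hq.1 hYs hq.2.2.1
      obtain ⟨b1', b2', b3'⟩ := Ac_Y S H hq'.1 hYs hq'.2.2.1
      obtain ⟨_, i, h4, _⟩ := H.cc Y hY _ b2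
      have hkd : kd q = kd q' := by rw [h4 q b3, h4 q' (by rw [hs]; exact b3')]
      have hv : qv q = qv q' := (Prod.mk.inj (show (qv q, al q) = (qv q', al q') from hs)).1
      have ha : al q = al q' := (Prod.mk.inj (show (qv q, al q) = (qv q', al q') from hs)).2
      have hb : be q = be q' := by rw [hq.2.2.2, hq'.2.2.2]
      have hwx : qw q = qw q' ∧ qx q = qx q' := by
        have N := Ac_nf S H hq.1
        have N' := Ac_nf S H hq'.1
        rcases N.cs with h | h | h | h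
        · rcases N'.cs with h' | h' | h' | h'
          · exact ⟨by rw [h.2.1, h'.2.1, hv], by rw [h.2.2, h'.2.2, hv]⟩
          · exact absurd h'.1 hq'.2.1
          · rw [h.1, h'.1] at hkd; exact absurd hkd (by decide)
          · rw [h.1, h'.1] at hkd; exact absurd hkd (by decide)
        · exact absurd h.1 hq.2.1
        · have e1 := N.k2 h.1
          have e2 := N'.k2 (by rw [← hkd]; exact h.1)
          have e3 : qx q = qx q' := by
            rw [← iv_eq S e1.2.1 rfl, ← iv_eq S e2.2.1 rfl, e1.2.2, e2.2.2, hv, ha]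
          exact ⟨by rw [e1.1, e2.1, e3], e3⟩
        · have e1 := N.k3 h.1
          have e2 := N'.k3 (by rw [← hkd]; exact h.1)
          have e3 : qw q = qw q' := by
            rw [← iv_eq S e1.1 rfl, ← iv_eq S e2.1 rfl, e1.2.1, e2.2.1, hv, ha]
          refine ⟨e3, ?_⟩
          have e4 : t (qw q) (qx q) = a := by rw [S.cor.ts, e1.2.2.2.1, hq.2.2.2]
          have e5 : t (qw q) (qx q') = a := by
            rw [e3, S.cor.ts, e2.2.2.2.1, hq'.2.2.2]
          have e6 := iv_eq S e1.2.2.1.symm e4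
          have e7 := iv_eq S (by rw [e3]; exact e2.2.2.1.symm) e5
          rw [← e6, ← e7]
      rw [← cn_eta q rfl rfl rfl rfl rfl rfl, ← cn_eta q' rfl rfl rfl rfl rfl rfl]
      rw [hkd, hv, ha, hb, hwx.1, hwx.2]
  have h2 : ((fl Sh Us C (fun q => kd q ≠ 1 ∧ qv q ∈ Y ∧ be q = a)).card : ℝ)
      ≤ (Us Y).card := by exact_mod_cast h1
  rcases Finset.eq_empty_or_nonempty (Us Y) with h0 | h0
  · have : fl Sh Us C (fun q => kd q ≠ 1 ∧ qv q ∈ Y ∧ be q = a) = ∅ := by
      rw [h0, card_empty, Nat.le_zero, Finset.card_eq_zero] at h1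
      exact h1
    unfold M
    rw [this, Finset.sum_empty]
    positivity
  have h3 : (0 : ℝ) < (Us Y).card := by exact_mod_cast Finset.card_pos.2 h0
  unfold M
  refine (Finset.sum_le_card_nsmul _ _ (nL Y / ((Us Y).card * (ρ * d))) ?_).trans ?_
  · intro q hq
    rw [mem_fl] at hq
    obtain ⟨b1, b2, b3⟩ := Ac_Y S H hq.1 hYs hq.2.2.1
    rw [W_val S H hY b2 b3]
    exact div_le_div_of_nonneg_left (by positivity) (by positivity)
      (mul_le_mul_of_nonneg_left (card_C S H hz hρ hd hq.1 hq.2.1) h3.le)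
  · rw [nsmul_eq_mul]
    calc _ ≤ ((Us Y).card : ℝ) * (nL Y / ((Us Y).card * (ρ * d))) :=
          mul_le_mul_of_nonneg_right h2 (by positivity)
      _ = _ := by field_simp

omit hρ

/-- second colour `a` at `Y`, kind 1, `a` is the own colour of a slot -/
theorem M7 {Y : Finset V} (hY : Y ∈ Sh) {s : V × Fin k} (hs : s ∈ Us Y) :
    M Sh nL Us C (fun q => kd q = 1 ∧ qv q ∈ Y ∧ be q = s.2)
      ≤ ε1 * Y.card * (8 / (z * d)) := by
  refine M_slot S H hz hd (csub ?_ (H.hv Y hY s hs))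
  intro s' hs'
  obtain ⟨q, hq, rfl⟩ := mem_image.1 hs'
  rw [mem_fl] at hq
  rw [mem_filter]
  obtain ⟨b1, b2, b3⟩ := Ac_Y S H hq.1 (S.sh hY) hq.2.2.1
  exact ⟨b2, q, b3, hq.2.1, hq.2.2.2⟩

omit hz hd

/-- the probabilities have sum 1 -/
theorem pr_sum (hz : 0 < z) (hd : 1 ≤ d) {Y : Finset V} (hY : Y ∈ Sh) (hn : 1 ≤ nL Y) :
    ∑ q, pr Us C Y q = 1 := by
  have h0 : 0 < (Us Y).card := by
    have h1 := H.uc Y hY
    have h2 : (d : ℝ) ≤ 2 * Y.card := by exact_mod_cast S.low Y hY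
    have hd' : (1 : ℝ) ≤ d := by exact_mod_cast hd
    have h3 : (1 : ℝ) ≤ nL Y := by exact_mod_cast hn
    have h4 : (0 : ℝ) < Y.card := by linarith
    have : (0 : ℝ) < (Us Y).card := lt_of_lt_of_le (by positivity) h1
    exact_mod_cast this
  have h1 : ∑ q, pr Us C Y q = ∑ q ∈ univ.filter (fun q => sl q ∈ Us Y ∧ q ∈ C (sl q)),
      (1 / ((Us Y).card * (C (sl q)).card) : ℚ) := by
    rw [Finset.sum_filter]
    refine Finset.sum_congr rfl fun q _ => ?_
    unfold pr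
    by_cases h : sl q ∈ Us Y ∧ q ∈ C (sl q)
    · rw [if_pos h, if_pos h]
    · rw [if_neg h, if_neg h]
  rw [h1, ← Finset.sum_fiberwise_of_maps_to
    (s := univ.filter (fun q : Cn V k => sl q ∈ Us Y ∧ q ∈ C (sl q)))
    (t := Us Y) (g := sl) (fun q hq => (mem_filter.1 hq).2.1)]
  have h2 : ∀ s ∈ Us Y, ∑ q ∈ (univ.filter (fun q : Cn V k => sl q ∈ Us Y ∧ q ∈ C (sl q))).filter
      (fun q => sl q = s), (1 / ((Us Y).card * (C (sl q)).card) : ℚ) = 1 / (Us Y).card := by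
    intro s hs
    have h3 : (univ.filter (fun q : Cn V k => sl q ∈ Us Y ∧ q ∈ C (sl q))).filter
        (fun q => sl q = s) = C s := by
      ext q
      rw [mem_filter, mem_filter]
      constructor
      · rintro ⟨⟨_, _, h⟩, rfl⟩
        exact h
      · intro h
        have := (H.cv s q h).1
        rw [this]
        exact ⟨⟨mem_univ _, hs, h⟩, rfl⟩
    rw [h3]
    have h4 : ∀ q ∈ C s, (1 / ((Us Y).card * (C (sl q)).card) : ℚ)
        = 1 / ((Us Y).card * (C s).card) := by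
      intro q hq
      rw [(H.cv s q hq).1]
    rw [Finset.sum_congr rfl h4, Finset.sum_const, nsmul_eq_mul]
    have h5 : ((C s).card : ℚ) ≠ 0 := by
      have := (H.cc Y hY s hs).1
      have : (C s).card ≠ 0 := by omega
      exact_mod_cast this
    have h6 : ((Us Y).card : ℚ) ≠ 0 := by exact_mod_cast h0.ne'
    field_simp
  rw [Finset.sum_congr rfl h2, Finset.sum_const, nsmul_eq_mul]
  have h6 : ((Us Y).card : ℚ) ≠ 0 := by exact_mod_cast h0.ne'
  field_simp

/-- the coins of the spot itself -/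
theorem M_own (hz : 0 < z) (hd : 1 ≤ d) {Y : Finset V} (hY : Y ∈ Ys) {x : ℝ} (h0 : 0 ≤ x)
    (hx : Y ∈ Sh → (nL Y : ℝ) ≤ x) : M Sh nL Us C (fun q => qv q ∈ Y) ≤ x := by
  by_cases h : Y ∈ Sh ∧ 1 ≤ nL Y
  · refine le_trans ?_ (hx h.1)
    have h1 : M Sh nL Us C (fun q => qv q ∈ Y) = ∑ q ∈ fl Sh Us C (fun q => qv q ∈ Y),
        (nL Y : ℝ) * (pr Us C Y q : ℝ) := by
      unfold M
      refine Finset.sum_congr rfl fun q hq => ?_
      rw [mem_fl] at hq
      obtain ⟨b1, b2, b3⟩ := Ac_Y S H hq.1 hY hq.2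
      rw [W_val S H b1 b2 b3]
      unfold pr
      rw [if_pos ⟨b2, b3⟩]
      push_cast
      ring
    rw [h1, ← Finset.mul_sum]
    have h2 : ∑ q ∈ fl Sh Us C (fun q => qv q ∈ Y), (pr Us C Y q : ℝ)
        ≤ ∑ q, (pr Us C Y q : ℝ) :=
      Finset.sum_le_sum_of_subset_of_nonneg (Finset.subset_univ _)
        (fun q _ _ => by exact_mod_cast pr_nonneg Y q)
    have h3 : ∑ q, (pr Us C Y q : ℝ) = 1 := by
      exact_mod_cast pr_sum S H hz hd h.1 h.2
    rw [h3] at h2
    calc _ ≤ (nL Y : ℝ) * 1 := mul_le_mul_of_nonneg_left h2 (Nat.cast_nonneg _)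
      _ = _ := mul_one _
  · have h1 : M Sh nL Us C (fun q => qv q ∈ Y) = 0 := by
      unfold M
      refine Finset.sum_eq_zero fun q hq => ?_
      rw [mem_fl] at hq
      obtain ⟨b1, b2, b3⟩ := Ac_Y S H hq.1 hY hq.2
      have h2 : nL Y = 0 := by
        by_contra hcon
        exact h ⟨b1, by omega⟩
      rw [W_val S H b1 b2 b3, h2]
      simp
    rw [h1]; exact h0

end msr

end Pool.Agent.Work.MP_db9399_sv.helper12
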