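import Pool.Agent.Work.MP_db9399_sv_helper12.Bnd

/-!
# MP_db9399, services: the block SELC
-/

set_option autoImplicit false

namespace Pool.Agent.Work.MP_db9399_sv.helper12

open Finset Classical
open Pool.Agent.Work.MP_db9399_all (nb)
open Pool.Agent.Work.MP_db9399_sl (InS Same Gex)
open Pool.Agent.Work.MP_db9399_sv

universe u

theorem growth (δ' : ℝ) (h : 0 < δ') :
    ∃ d0 : ℕ, ∀ d : ℕ, d0 ≤ d → 40 * (6 * d ^ 3) ≤ 2 ^ ⌊δ' * d⌋₊ := by
  have h1 := tendsto_pow_const_div_const_pow_of_one_lt 3 (r := (2 : ℝ)) (by norm_num)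
  have h2 : ∀ᶠ n : ℕ in Filter.atTop, (n : ℝ) ^ 3 / 2 ^ n < δ' ^ 3 / 480 :=
    (tendsto_order.1 h1).2 _ (by positivity)
  obtain ⟨N0, hN0⟩ := Filter.eventually_atTop.1 h2
  refine ⟨⌈((N0 : ℝ) + 1) / δ'⌉₊, fun d hd => ?_⟩
  have h3 : ((N0 : ℝ) + 1) / δ' ≤ d := (Nat.le_ceil _).trans (by exact_mod_cast hd)
  rw [div_le_iff₀ h] at h3
  set K := ⌊δ' * d⌋₊ with hK
  have h4 : N0 ≤ K := by
    rw [hK]
    refine Nat.le_floor ?_
    linarith
  have h5 := hN0 (K + 1) (by omega)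
  have h6 : δ' * d < K + 1 := by
    have := Nat.lt_floor_add_one (δ' * d)
    rw [← hK] at this
    exact_mod_cast this
  rw [div_lt_iff₀ (by positivity)] at h5
  have h7 : (δ' * d) ^ 3 ≤ ((K : ℝ) + 1) ^ 3 := pow_le_pow_left₀ (by positivity) h6.le 3
  push_cast at h5
  have h8 : δ' ^ 3 * (d : ℝ) ^ 3 ≤ δ' ^ 3 * (2 ^ K / 240) := by
    calc δ' ^ 3 * (d : ℝ) ^ 3 = (δ' * d) ^ 3 := by ring
      _ ≤ ((K : ℝ) + 1) ^ 3 := h7
      _ ≤ δ' ^ 3 / 480 * 2 ^ (K + 1) := h5.le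
      _ = δ' ^ 3 * (2 ^ K / 240) := by ring
  have h9 : (d : ℝ) ^ 3 ≤ 2 ^ K / 240 := le_of_mul_le_mul_left h8 (by positivity)
  have h10 : (40 * (6 * (d : ℝ) ^ 3)) ≤ 2 ^ K := by linarith
  exact_mod_cast h10

theorem sum_le_of {X : Type*} [Fintype X] (f : X → ℝ) (h0 : ∀ x, 0 ≤ f x) (P Q : X → Prop)
    [DecidablePred P] [DecidablePred Q] (h : ∀ x, f x ≠ 0 → P x → Q x) :
    ∑ x ∈ univ.filter P, f x ≤ ∑ x ∈ univ.filter Q, f x := by
  rw [Finset.sum_filter, Finset.sum_filter]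
  refine Finset.sum_le_sum fun x _ => ?_
  by_cases hf : f x = 0
  · rw [hf]; simp
  · by_cases hP : P x
    · rw [if_pos hP, if_pos (h x hf hP)]
    · rw [if_neg hP]
      split_ifs
      · exact h0 x
      · exact le_rfl

theorem sum_J {V : Type u} [Fintype V] {k : ℕ} (Sh : Finset (Finset V)) (nL : Finset V → ℕ)
    (Us : Finset V → Finset (V × Fin k)) (C : V × Fin k → Finset (Cn V k)) (P : Cn V k → Prop)
    [DecidablePred P] :
    ∑ j : ↥(Sh.sigma (fun Y => range (nL Y))), ∑ q ∈ univ.filter P, (pr Us C j.1.1 q : ℝ)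
      = M Sh nL Us C P := by
  rw [M_eq, Finset.sum_comm]
  refine Finset.sum_congr rfl fun q _ => ?_
  rw [Finset.sum_coe_sort (Sh.sigma (fun Y => range (nL Y))) (fun x => (pr Us C x.1 q : ℝ)),
    Finset.sum_sigma]
  unfold W
  refine Finset.sum_congr rfl fun Y _ => ?_
  show ∑ s ∈ range (nL Y), (pr Us C Y q : ℝ) = _
  rw [Finset.sum_const, card_range, nsmul_eq_mul]

/-- the coin touches the spot -/
def Tch {V : Type u} {k : ℕ} (Ys : Finset (Finset V)) (q : Cn V k) (I : Finset V) : Prop :=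
  I ∈ Ys ∧ (qv q ∈ I ∨ qx q ∈ I)

theorem stmt_SELC (hS : Stmt_SELQ.{u}) : Stmt_SELC.{u} := by
  intro z hz
  refine ⟨z / 8000, by positivity, fun ρ hρ => ?_⟩
  set D : ℝ := (1 + 8 / z) * (1 + 1 / ρ) with hD
  have hz8 : 0 < 8 / z := by positivity
  have hρ1 : 0 < 1 / ρ := by positivity
  have hD0 : 0 < D := by positivity
  set δ : ℝ := z / (64000 * (1 + 1 / ρ)) with hδdef
  set θ : ℝ := 1 / (1000 * D) with hθdef
  have hδ : 0 < δ := by positivity
  have hθ : 0 < θ := by positivity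
  refine ⟨δ, θ, hδ, hθ, fun δ' hδ' => ?_⟩
  obtain ⟨d1, hd1⟩ := growth δ' hδ'
  set η : ℝ := min θ (δ' / (1000 * D)) with hηdef
  have hη : 0 < η := lt_min hθ (by positivity)
  have hηθ : η ≤ θ := min_le_left _ _
  have hηδ : η ≤ δ' / (1000 * D) := min_le_right _ _
  refine ⟨η, max d1 (max 1 ⌈2 / δ'⌉₊), hη, ?_⟩
  intro V _ _ k G EH d Ys Sh UH X0 c0 tu c t E F0 K0 μ Pm nL nD Ex Hb hd0 S
  have hdd1 : d1 ≤ d := (le_max_left _ _).trans hd0
  have hd : 1 ≤ d := ((le_max_left _ _).trans (le_max_right _ _)).trans hd0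
  have hd2 : ⌈2 / δ'⌉₊ ≤ d := ((le_max_right _ _).trans (le_max_right _ _)).trans hd0
  have hd' : (1 : ℝ) ≤ d := by exact_mod_cast hd
  have hd3 : 2 / δ' ≤ d := (Nat.le_ceil _).trans (by exact_mod_cast hd2)
  rw [div_le_iff₀ hδ'] at hd3
  -- constants
  have kθ : ∀ x : ℝ, 0 ≤ x → x ≤ D → θ * x ≤ 1 / 1000 := by
    intro x hx hxD
    rw [hθdef, div_mul_eq_mul_div, div_le_div_iff₀ (by positivity) (by norm_num)]
    linarith
  have kη : ∀ x : ℝ, 0 ≤ x → x ≤ D → η * x ≤ δ' / 1000 := by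
    intro x hx hxD
    refine (mul_le_mul_of_nonneg_right hηδ hx).trans ?_
    rw [div_mul_eq_mul_div, div_le_div_iff₀ (by positivity) (by norm_num)]
    have := mul_le_mul_of_nonneg_left hxD hδ'.le
    linarith
  have hDe : D = 1 + 8 / z + 1 / ρ + 8 / z * (1 / ρ) := by rw [hD]; ring
  have hzρ : 0 < 8 / z * (1 / ρ) := by positivity
  have θ2 : θ * (8 / z) ≤ 1 / 1000 := kθ _ hz8.le (by rw [hDe]; linarith)
  have θ3 : θ * (8 / z) / ρ ≤ 1 / 1000 := by
    have := kθ (8 / z * (1 / ρ)) hzρ.le (by rw [hDe]; linarith)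
    calc θ * (8 / z) / ρ = θ * (8 / z * (1 / ρ)) := by ring
      _ ≤ _ := this
  have θ4 : θ / ρ ≤ 1 / 1000 := by
    have := kθ (1 / ρ) hρ1.le (by rw [hDe]; linarith)
    calc θ / ρ = θ * (1 / ρ) := by ring
      _ ≤ _ := this
  have η1 : η ≤ δ' / 1000 := by
    have := kη 1 one_pos.le (by rw [hDe]; linarith)
    rwa [mul_one] at this
  have η2 : η * (8 / z) ≤ δ' / 1000 := kη _ hz8.le (by rw [hDe]; linarith)
  have η3 : η * (8 / z) / ρ ≤ δ' / 1000 := by
    have := kη (8 / z * (1 / ρ)) hzρ.le (by rw [hDe]; linarith)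
    calc η * (8 / z) / ρ = η * (8 / z * (1 / ρ)) := by ring
      _ ≤ _ := this
  have δa : δ ≤ z / 64000 := by
    rw [hδdef]
    refine div_le_div_of_nonneg_left hz.le (by norm_num) ?_
    linarith
  have δb : δ * (8 / z) ≤ 1 / 1000 := by
    calc δ * (8 / z) ≤ z / 64000 * (8 / z) := mul_le_mul_of_nonneg_right δa hz8.le
      _ = 1 / 8000 := by field_simp; norm_num
      _ ≤ 1 / 1000 := by norm_num
  have δc : δ * (8 / z) / ρ ≤ 1 / 1000 := by
    have e1 : δ * (8 / z) / ρ = 1 / (8000 * (ρ + 1)) := by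
      rw [hδdef]
      field_simp
      norm_num
    rw [e1]
    refine div_le_div_of_nonneg_left one_pos.le (by norm_num) ?_
    linarith
  have δd : z / 8000 * (8 / z) ≤ 1 / 1000 := by
    apply le_of_eq; field_simp; norm_num
  have εa : z / 16000 * 16 / z ≤ 1 / 1000 := by
    apply le_of_eq; field_simp; norm_num
  -- slots
  obtain ⟨Us, H⟩ := exists_chc S (ε1 := z / 16000) hρ hδ hz (by linarith) hd
  set C := Cs ρ G EH d Ys Sh UH X0 K0 μ t E F0 Pm with hC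
  set K : ℕ := ⌊δ' * d⌋₊ with hK
  have hK1 : (K : ℝ) ≤ δ' * d := Nat.floor_le (by positivity)
  have hK2 : δ' * d < K + 1 := by
    have := Nat.lt_floor_add_one (δ' * d)
    rw [← hK] at this
    exact_mod_cast this
  have hK3 : δ' * d / 2 ≤ K := by linarith
  have hK4 : 1 ≤ K := by
    rw [hK]
    refine Nat.le_floor ?_
    push_cast
    linarith
  let JS : Finset (Σ _ : Finset V, ℕ) := Sh.sigma (fun Y => range (nL Y))
  have hJ : ∀ j : ↥JS, j.1.1 ∈ Sh ∧ j.1.2 < nL j.1.1 := by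
    intro j
    have := mem_sigma.1 j.2
    exact ⟨this.1, mem_range.1 this.2⟩
  have hnz : ∀ (Y : Finset V), Y ∈ Sh → ∀ q, pr Us C Y q ≠ 0 →
      qv q ∈ Y ∧ Nf G Ys UH X0 μ t E q := by
    intro Y hY q hq
    have h1 := pr_ne hq
    exact ⟨H.uy Y hY _ h1.1, Ac_nf S H (mem_Ac.2 ⟨Y, hY, h1.1, h1.2⟩)⟩
  obtain ⟨f, hf1, hf2, hf3⟩ := hS (↥JS) (Cn V k) (Finset V) (fun j q => pr Us C j.1.1 q)
    (fun j q j' q' => Cnf j.1.1 q j'.1.1 q') (fun _ q I => Tch Ys q I)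
    K (6 * d ^ 3) (fun j q => pr_nonneg _ _)
    (fun j => pr_sum S H hz hd (hJ j).1 (by have := (hJ j).2; omega))
    (fun j q j' q' h => Cnf_symm h)
    (by
      intro j q hq
      obtain ⟨hv, hN⟩ := hnz _ (hJ j).1 q hq
      obtain ⟨Yx, hYx, hx⟩ := hN.ix
      have hYs := S.sh (hJ j).1
      have h1 := conf S H hz hρ hd hθ.le θ2 θ3 θ4 δd δb δc (by positivity) εa hηθ
        (hJ j).1 hYx (pr_ne hq).1
      rw [← sum_J] at h1
      have h2 : ((∑ j' ∈ univ.filter (fun j' => j' ≠ j),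
          ∑ q' ∈ univ.filter (fun q' => Cnf j.1.1 q j'.1.1 q'), pr Us C j'.1.1 q' : ℚ) : ℝ)
          ≤ ((1 / 40 : ℚ) : ℝ) := by
        push_cast
        refine le_trans ?_ h1
        refine le_trans (Finset.sum_le_sum_of_subset_of_nonneg (Finset.subset_univ _) ?_) ?_
        · intro j' _ _
          exact Finset.sum_nonneg fun q' _ => by exact_mod_cast pr_nonneg _ _
        · refine Finset.sum_le_sum fun j' _ => ?_
          refine sum_le_of (fun q' => (pr Us C j'.1.1 q' : ℝ))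
            (fun q' => by exact_mod_cast pr_nonneg _ _) _ _ ?_
          intro q' hq' hc
          have hq0 : pr Us C j'.1.1 q' ≠ 0 := by
            intro h; exact hq' (by simp [h])
          obtain ⟨hv', hN'⟩ := hnz _ (hJ j').1 q' hq0
          exact dis_of S H hYs hYx (S.sh (hJ j').1) hN hN' hv hx hv' hc
      exact_mod_cast h2)
    (by
      intro I
      have h2 : ((∑ j : ↥JS, ∑ q ∈ univ.filter (fun q => Tch Ys q I),
          pr Us C j.1.1 q : ℚ) : ℝ) ≤ ((K / 40 : ℚ) : ℝ) := by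
        push_cast
        by_cases hI : I ∈ Ys
        · have h3 : ∑ j : ↥JS, ∑ q ∈ univ.filter (fun q => Tch Ys q I),
              (pr Us C j.1.1 q : ℝ) = M Sh nL Us C (fun q => Tch Ys q I) :=
            sum_J Sh nL Us C _
          rw [h3]
          refine (M_mono (Q := fun q => qv q ∈ I ∨ qx q ∈ I) (fun q _ h => h.2)).trans ?_
          refine (capa S H hz hρ hd hη.le hI).trans ?_
          have h4 : η + η * (8 / z) + η * (8 / z) / ρ ≤ δ' / 80 := by linarith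
          have h5 := mul_le_mul_of_nonneg_right h4 (show (0 : ℝ) ≤ d by positivity)
          linarith
        · have h3 : ∀ j : ↥JS, ∑ q ∈ univ.filter (fun q => Tch Ys q I),
              (pr Us C j.1.1 q : ℝ) = 0 := by
            intro j
            refine Finset.sum_eq_zero fun q hq => ?_
            exact absurd (mem_filter.1 hq).2.1 hI
          rw [Finset.sum_congr rfl (fun j _ => h3 j), Finset.sum_const_zero]
          positivity
      exact_mod_cast h2)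
    (by
      intro j
      refine le_trans (Finset.card_le_card ?_) (num S H hz hρ hd (hJ j).1)
      intro I hI
      rw [mem_filter] at hI ⊢
      exact hI)
    (hd1 d hdd1) hK4
  have hkpos : 0 < k := by
    have h1 : 0 < K0.card := by rw [S.K0c]; omega
    obtain ⟨a, _⟩ := Finset.card_pos.1 h1
    exact a.pos
  have : Nonempty (Cn V k) := by
    obtain ⟨v⟩ := ‹Nonempty V›
    exact ⟨(0, v, v, v, ⟨0, hkpos⟩, ⟨0, hkpos⟩)⟩
  let F : Finset V → ℕ → Cn V k := fun Y i =>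
    if h : (⟨Y, i⟩ : Σ _ : Finset V, ℕ) ∈ JS then f ⟨⟨Y, i⟩, h⟩ else Classical.arbitrary _
  have hmem : ∀ Y ∈ Sh, ∀ i < nL Y, (⟨Y, i⟩ : Σ _ : Finset V, ℕ) ∈ JS := by
    intro Y hY i hi
    exact mem_sigma.2 ⟨hY, mem_range.2 hi⟩
  have hF : ∀ Y (hY : Y ∈ Sh) i (hi : i < nL Y), F Y i = f ⟨⟨Y, i⟩, hmem Y hY i hi⟩ := by
    intro Y hY i hi
    exact dif_pos (hmem Y hY i hi)
  let T : Finset V := univ.biUnion (fun j : ↥JS => ({qv (f j), qx (f j)} : Finset V))
  refine ⟨F, T, ?_, ?_, ?_, ?_⟩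
  · intro Y hY i hi
    rw [hF Y hY i hi]
    set j : ↥JS := ⟨⟨Y, i⟩, hmem Y hY i hi⟩ with hj
    have h1 := hf1 j
    have h2 := pr_ne h1
    have h3 := H.cv _ _ h2.2
    refine ⟨H.uy Y hY _ h2.1, h3.2.1, H.ux Y hY _ h2.1, h3.2.2, ?_, ?_⟩
    · exact mem_biUnion.2 ⟨j, mem_univ _, by simp⟩
    · exact mem_biUnion.2 ⟨j, mem_univ _, by simp⟩
  · intro Y hY i hi Y' hY' i' hi' hne
    rw [hF Y hY i hi, hF Y' hY' i' hi']
    have hne' : (⟨⟨Y, i⟩, hmem Y hY i hi⟩ : ↥JS) ≠ ⟨⟨Y', i'⟩, hmem Y' hY' i' hi'⟩ := by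
      intro h
      have h1 := Subtype.ext_iff.1 h
      simp only [Sigma.mk.injEq, heq_eq_eq] at h1
      exact hne (Prod.ext h1.1 h1.2)
    have h1 := hf2 _ _ hne'
    unfold Cnf at h1
    push Not at h1
    exact ⟨h1.1, fun h => h1.2.1 h⟩
  · intro v hv
    obtain ⟨j, _, hj⟩ := mem_biUnion.1 hv
    obtain ⟨_, hN⟩ := hnz _ (hJ j).1 _ (hf1 j)
    rw [mem_insert, mem_singleton] at hj
    rcases hj with rfl | rfl
    · exact Or.inl hN.vX
    · exact hN.xX
  · intro Y hY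
    refine le_trans ?_ hK1
    have h1 := hf3 Y
    refine le_trans ?_ (show (((univ.filter (fun j : ↥JS => Tch Ys (f j) Y)).card : ℕ) : ℝ) ≤ K by exact_mod_cast h1)
    have h2 : (Y ∩ T) ⊆ (univ.filter (fun j : ↥JS => Tch Ys (f j) Y)).image
        (fun j => if qv (f j) ∈ Y then qv (f j) else qx (f j)) := by
      intro v hv
      obtain ⟨hvY, hvT⟩ := mem_inter.1 hv
      obtain ⟨j, _, hj⟩ := mem_biUnion.1 hvT
      obtain ⟨_, hN⟩ := hnz _ (hJ j).1 _ (hf1 j)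
      rw [mem_insert, mem_singleton] at hj
      rw [mem_image]
      rcases hj with rfl | rfl
      · exact ⟨j, mem_filter.2 ⟨mem_univ _, hY, Or.inl hvY⟩, if_pos hvY⟩
      · refine ⟨j, mem_filter.2 ⟨mem_univ _, hY, Or.inr hvY⟩, ?_⟩
        split_ifs with h3
        · exact (hN.same hY h3 hvY).symm
        · rfl
    exact_mod_cast (Finset.card_le_card h2).trans Finset.card_image_le

end Pool.Agent.Work.MP_db9399_sv.helper12
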