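import Pool.Agent.Work.MP_db9399_sv_helper12.Cnt

/-!
# MP_db9399, services: the slots of every spot and the weights (for the block SELC)
-/

set_option autoImplicit false

namespace Pool.Agent.Work.MP_db9399_sv.helper12

open Finset Classical
open Pool.Agent.Work.MP_db9399_all (nb)
open Pool.Agent.Work.MP_db9399_sl (InS Same Gex)
open Pool.Agent.Work.MP_db9399_sv

universe u

set_option linter.unusedSectionVars false

section wts
variable {V : Type u} [Fintype V] {k : ℕ}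

variable {z δ1 ρ δ θ η : ℝ} {G EH : SimpleGraph V} {d : ℕ} {Ys Sh : Finset (Finset V)}
  {UH X0 : Finset V} {c0 tu c : V → Fin k} {t : V → V → Fin k} {E F0 : V → Finset (Fin k)}
  {K0 : Finset (Fin k)} {μ : V → Fin k} {Pm : V → V → Prop} {nL nD : Finset V → ℕ}
  {Ex : Finset V → Finset (Fin k)} {Hb : Finset V → Finset V}

/-- the coins of kind `i` at the slot `s` -/
noncomputable def ck (G EH : SimpleGraph V) (Ys Sh : Finset (Finset V)) (UH X0 : Finset V)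
    (K0 : Finset (Fin k)) (μ : V → Fin k) (t : V → V → Fin k) (E F0 : V → Finset (Fin k))
    (s : V × Fin k) (i : Fin 4) : Finset (Cn V k) :=
  univ.filter (fun q : Cn V k => kd q = i ∧ qv q = s.1 ∧ al q = s.2 ∧
    Vld G EH Ys Sh UH X0 K0 μ t E F0 q)

theorem mem_ck {s : V × Fin k} {i : Fin 4} {q : Cn V k} :
    q ∈ ck G EH Ys Sh UH X0 K0 μ t E F0 s i ↔ kd q = i ∧ qv q = s.1 ∧ al q = s.2 ∧
      Vld G EH Ys Sh UH X0 K0 μ t E F0 q := by
  unfold ck
  rw [mem_filter]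
  simp

/-- the coins which may be chosen at the slot `s` -/
noncomputable def Cs (ρ : ℝ) (G EH : SimpleGraph V) (d : ℕ) (Ys Sh : Finset (Finset V))
    (UH X0 : Finset V) (K0 : Finset (Fin k)) (μ : V → Fin k) (t : V → V → Fin k)
    (E F0 : V → Finset (Fin k)) (Pm : V → V → Prop) (s : V × Fin k) : Finset (Cn V k) :=
  if h : ∃ q : Cn V k, kd q = 1 ∧ qv q = s.1 ∧ al q = s.2 ∧ Pm (qw q) s.1 ∧
      Vld G EH Ys Sh UH X0 K0 μ t E F0 q then {h.choose}
  else if h' : ∃ i : Fin 4, i ≠ 1 ∧ ρ * d ≤ ((ck G EH Ys Sh UH X0 K0 μ t E F0 s i).card : ℝ) then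
    ck G EH Ys Sh UH X0 K0 μ t E F0 s h'.choose
  else ∅

/-- the chosen slots `Us Y` of every spot -/
structure Chc (z ρ ε1 : ℝ) (G EH : SimpleGraph V) (d : ℕ) (Ys Sh : Finset (Finset V))
    (UH X0 : Finset V) (K0 : Finset (Fin k)) (μ : V → Fin k) (t : V → V → Fin k)
    (E F0 : V → Finset (Fin k)) (Pm : V → V → Prop) (nL : Finset V → ℕ)
    (Ex : Finset V → Finset (Fin k)) (Us : Finset V → Finset (V × Fin k))
    (C : V × Fin k → Finset (Cn V k)) : Prop where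
  uy : ∀ Y ∈ Sh, ∀ s ∈ Us Y, s.1 ∈ Y
  ux : ∀ Y ∈ Sh, ∀ s ∈ Us Y, s.2 ∉ Ex Y
  uc : ∀ Y ∈ Sh, z / 4 * nL Y * Y.card ≤ ((Us Y).card : ℝ)
  cv : ∀ s, ∀ q ∈ C s, sl q = s ∧ Vld G EH Ys Sh UH X0 K0 μ t E F0 q ∧ (kd q = 1 → Pm (qw q) (qv q))
  cc : ∀ Y ∈ Sh, ∀ s ∈ Us Y, 1 ≤ (C s).card ∧ ∃ i, (∀ q ∈ C s, kd q = i) ∧
    (i ≠ 1 → ρ * d ≤ ((C s).card : ℝ))
  hv : ∀ Y ∈ Sh, ∀ s ∈ Us Y,
    (((Us Y).filter (fun s' => ∃ q ∈ C s', kd q = 1 ∧ be q = s.2)).card : ℝ) ≤ ε1 * Y.card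

theorem Cs_spec (s : V × Fin k) (q : Cn V k) (hq : q ∈ Cs ρ G EH d Ys Sh UH X0 K0 μ t E F0 Pm s) :
    sl q = s ∧ Vld G EH Ys Sh UH X0 K0 μ t E F0 q ∧ (kd q = 1 → Pm (qw q) (qv q)) := by
  unfold Cs at hq
  split_ifs at hq with h h'
  · have h1 := h.choose_spec
    rw [mem_singleton] at hq
    rw [← hq] at h1
    refine ⟨Prod.ext h1.2.1 h1.2.2.1, h1.2.2.2.2, fun _ => ?_⟩
    rw [h1.2.1]
    exact h1.2.2.2.1
  · have h1 := h'.choose_spec
    rw [mem_ck] at hq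
    refine ⟨Prod.ext hq.2.1 hq.2.2.1, hq.2.2.2, fun h2 => ?_⟩
    exact absurd (hq.1.symm.trans h2) h1.1
  · simp at hq

theorem Cs_card (hd : 0 < ρ * d) (s : V × Fin k)
    (hs : Usl ρ G EH d Ys Sh UH X0 K0 μ t E F0 Pm s) :
    1 ≤ (Cs ρ G EH d Ys Sh UH X0 K0 μ t E F0 Pm s).card ∧
      ∃ i, (∀ q ∈ Cs ρ G EH d Ys Sh UH X0 K0 μ t E F0 Pm s, kd q = i) ∧
        (i ≠ 1 → ρ * d ≤ ((Cs ρ G EH d Ys Sh UH X0 K0 μ t E F0 Pm s).card : ℝ)) ∧
        (i = 1 → (Cs ρ G EH d Ys Sh UH X0 K0 μ t E F0 Pm s).card = 1) := by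
  unfold Cs
  split_ifs with h h'
  · refine ⟨by simp, 1, ?_, fun h2 => absurd rfl h2, fun _ => by simp⟩
    intro q hq
    rw [mem_singleton] at hq
    rw [hq]
    exact h.choose_spec.1
  · have h1 := h'.choose_spec
    refine ⟨?_, h'.choose, ?_, fun _ => h1.2, fun h2 => absurd h2 h1.1⟩
    · have : (0 : ℝ) < ((ck G EH Ys Sh UH X0 K0 μ t E F0 s h'.choose).card : ℝ) := lt_of_lt_of_le hd h1.2
      exact_mod_cast this
    · intro q hq
      rw [mem_ck] at hq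
      exact hq.1
  · rcases hs with hs | hs
    · exact absurd hs h
    · exact absurd hs h'

/-- slots of a spot with a colour of a given set -/
theorem slo_card (S : Sit z δ1 ρ δ θ η G EH d Ys Sh UH X0 c0 tu c t E F0 K0 μ Pm nL nD Ex Hb)
    {Y : Finset V} (hY : Y ∈ Ys) (D : Finset (Fin k)) (A : Finset (V × Fin k))
    (hA : ∀ s ∈ A, s ∈ slo Y E ∧ s.2 ∈ D) {n : ℝ} (hD : (D.card : ℝ) ≤ n) (h0 : 0 ≤ δ * d) :
    (A.card : ℝ) ≤ n * (δ * d) := by
  refine csub (B := D.biUnion (fun b => (Y.filter (fun v => b ∈ E v)).image (fun v => (v, b)))) ?_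
    (cbr _ _ _ _ hD h0 ?_)
  · intro s hs
    obtain ⟨h1, h2⟩ := hA s hs
    refine mem_biUnion.2 ⟨s.2, h2, mem_image.2 ⟨s.1, ?_, rfl⟩⟩
    simp only [slo, mem_filter, mem_product, mem_univ, and_true] at h1
    rw [mem_filter]
    exact h1
  · intro b _
    refine le_trans ?_ (S.ld Y hY b)
    exact_mod_cast Finset.card_image_le

/-- a double count -/
theorem dbl {ι κ : Type*} [Fintype κ] [DecidableEq ι] [DecidableEq κ] (A : Finset ι)
    (P : ι → κ → Prop) [∀ i a, Decidable (P i a)] (H : Finset κ)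
    (h1 : ∀ i ∈ A, ∀ a b, P i a → P i b → a = b) (x : ℝ)
    (h2 : ∀ a ∈ H, x ≤ ((A.filter (fun i => P i a)).card : ℝ)) :
    (H.card : ℝ) * x ≤ A.card := by
  have h3 : (H.card : ℝ) * x ≤ ∑ a ∈ H, ((A.filter (fun i => P i a)).card : ℝ) := by
    rw [← nsmul_eq_mul]
    exact Finset.card_nsmul_le_sum _ _ _ h2
  refine h3.trans ?_
  have h4 : (H.biUnion (fun a => A.filter (fun i => P i a))).card
      = ∑ a ∈ H, (A.filter (fun i => P i a)).card := by
    refine Finset.card_biUnion ?_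
    intro a _ b _ hab
    rw [Function.onFun, Finset.disjoint_left]
    intro i hi hi'
    rw [mem_filter] at hi hi'
    exact hab (h1 i hi.1 a b hi.2 hi'.2)
  have h5 : (H.biUnion (fun a => A.filter (fun i => P i a))).card ≤ A.card :=
    Finset.card_le_card (Finset.biUnion_subset.2 fun a _ => Finset.filter_subset _ _)
  rw [h4] at h5
  exact_mod_cast h5

/-- the slots are chosen -/
theorem exists_chc (S : Sit z δ1 ρ δ θ η G EH d Ys Sh UH X0 c0 tu c t E F0 K0 μ Pm nL nD Ex Hb)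
    {ε1 : ℝ} (hρ : 0 < ρ) (hδ : 0 < δ) (h1 : 0 < z)
    (h2 : 4 * δ ≤ ε1) (hd : 1 ≤ d) :
    ∃ Us, Chc z ρ ε1 G EH d Ys Sh UH X0 K0 μ t E F0 Pm nL Ex Us
      (Cs ρ G EH d Ys Sh UH X0 K0 μ t E F0 Pm) := by
  have hd' : (1 : ℝ) ≤ d := by exact_mod_cast hd
  have hρd : 0 < ρ * d := by positivity
  set C := Cs ρ G EH d Ys Sh UH X0 K0 μ t E F0 Pm with hC
  let A : Finset V → Finset (V × Fin k) := fun Y =>
    (slo Y E).filter (fun s => s.2 ∉ Ex Y ∧ Usl ρ G EH d Ys Sh UH X0 K0 μ t E F0 Pm s)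
  let hc : Finset V → Fin k → Finset (V × Fin k) := fun Y a =>
    (A Y).filter (fun s' => ∃ q ∈ C s', kd q = 1 ∧ be q = a)
  let Hv : Finset V → Finset (Fin k) := fun Y =>
    univ.filter (fun a => ε1 * Y.card < ((hc Y a).card : ℝ))
  let Us : Finset V → Finset (V × Fin k) := fun Y => (A Y).filter (fun s => s.2 ∉ Hv Y)
  have memA : ∀ Y s, s ∈ A Y ↔ (s ∈ slo Y E ∧ Usl ρ G EH d Ys Sh UH X0 K0 μ t E F0 Pm s) ∧ s.2 ∉ Ex Y := by
    intro Y s
    simp only [A, mem_filter]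
    tauto
  have memU : ∀ Y s, s ∈ Us Y ↔ s ∈ A Y ∧ s.2 ∉ Hv Y := by
    intro Y s
    simp only [Us, mem_filter]
  refine ⟨Us, ?_, ?_, ?_, ?_, ?_, ?_⟩
  · intro Y _ s hs
    have := ((memA Y s).1 ((memU Y s).1 hs).1).1.1
    simp only [slo, mem_filter, mem_product, mem_univ, and_true] at this
    exact this.1
  · intro Y _ s hs
    exact ((memA Y s).1 ((memU Y s).1 hs).1).2
  · intro Y hY
    rcases Nat.eq_zero_or_pos (nL Y) with hn | hn
    · rw [hn]; simp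
    have hYs := S.sh hY
    have hlow : (d : ℝ) ≤ 2 * Y.card := by exact_mod_cast S.low Y hY
    have hm : (0 : ℝ) < Y.card := by linarith
    have hn1 : (1 : ℝ) ≤ nL Y := by exact_mod_cast hn
    have e5 : z * (nL Y * Y.card) ≤ ((A Y).card : ℝ) := by
      have := S.us Y hY
      calc z * (nL Y * Y.card) = z * nL Y * Y.card := by ring
        _ ≤ _ := this
    -- heavy colours
    have f1 : ((Hv Y).card : ℝ) * (ε1 * Y.card) ≤ ((A Y).card : ℝ) := by
      refine dbl (A Y) (fun s' a => ∃ q ∈ C s', kd q = 1 ∧ be q = a) (Hv Y) ?_ _ ?_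
      · rintro s hs a b ⟨q, hq, hq1, rfl⟩ ⟨q', hq', hq1', rfl⟩
        have hu : Usl ρ G EH d Ys Sh UH X0 K0 μ t E F0 Pm s := ((memA Y s).1 hs).1.2
        obtain ⟨b1, i, b2, b3, b4⟩ := Cs_card hρd s hu
        have hi : i = 1 := by rw [← b2 q hq, hq1]
        have b5 := b4 hi
        rw [Finset.card_eq_one] at b5
        obtain ⟨q0, hq0⟩ := b5
        rw [← hC] at hq0
        rw [hq0, mem_singleton] at hq hq'
        rw [hq, hq']
      · intro a ha
        have : ε1 * Y.card < ((hc Y a).card : ℝ) := by simpa [Hv] using ha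
        exact this.le
    have f2 : (((A Y).filter (fun s => ¬ s.2 ∉ Hv Y)).card : ℝ) ≤ ((Hv Y).card : ℝ) * (δ * d) := by
      refine slo_card S hYs (Hv Y) _ ?_ le_rfl (by positivity)
      intro s hs
      rw [mem_filter, not_not] at hs
      exact ⟨((memA Y s).1 hs.1).1.1, hs.2⟩
    have f3 : ((A Y).card : ℝ) = ((Us Y).card : ℝ)
        + (((A Y).filter (fun s => ¬ s.2 ∉ Hv Y)).card : ℝ) := by
      have := Finset.card_filter_add_card_filter_not (s := A Y) (fun s => s.2 ∉ Hv Y)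
      exact_mod_cast this.symm
    have f4 : ((Hv Y).card : ℝ) * (δ * d) ≤ ((A Y).card : ℝ) / 2 := by
      have a2 : δ * d ≤ (ε1 * Y.card) / 2 := by
        have : δ * d ≤ δ * (2 * Y.card) := mul_le_mul_of_nonneg_left hlow hδ.le
        have h3 : δ * (2 * Y.card) ≤ (ε1 * Y.card) / 2 := by
          have := mul_le_mul_of_nonneg_right h2 hm.le
          linarith
        exact this.trans h3
      calc ((Hv Y).card : ℝ) * (δ * d) ≤ (Hv Y).card * ((ε1 * Y.card) / 2) :=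
            mul_le_mul_of_nonneg_left a2 (by positivity)
        _ = ((Hv Y).card * (ε1 * Y.card)) / 2 := by ring
        _ ≤ _ := by linarith
    have e6 : 0 ≤ z * (nL Y * Y.card) := by
      have : 0 < z := by linarith
      positivity
    have : z / 4 * nL Y * Y.card = (z * (nL Y * Y.card)) / 4 := by ring
    rw [this]
    linarith
  · intro s q hq
    exact Cs_spec s q hq
  · intro Y _ s hs
    have hu := ((memA Y s).1 ((memU Y s).1 hs).1).1.2
    obtain ⟨b1, i, b2, b3, b4⟩ := Cs_card hρd s hu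
    exact ⟨b1, i, b2, b3⟩
  · intro Y _ s hs
    have h3 : s.2 ∉ Hv Y := ((memU Y s).1 hs).2
    have h4 : ((hc Y s.2).card : ℝ) ≤ ε1 * Y.card := by
      by_contra hcon
      exact h3 (by simpa [Hv] using lt_of_not_ge hcon)
    refine csub ?_ h4
    intro s' hs'
    rw [mem_filter] at hs' ⊢
    exact ⟨((memU Y s').1 hs'.1).1, hs'.2⟩

end wts

end Pool.Agent.Work.MP_db9399_sv.helper12
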